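import Mathlib
import Pool.Agent.R389.Defs

/-!
# The equivariant Beilinson conjecture for number fields: definitions
-/

set_option autoImplicit false

open Filter Topology NumberField

namespace Pool.Agent.U157.BB

/-- The Galois extension `F` of `ℚ` with group `Γ = Gal(F/ℚ)`. -/
structure Data (F : Type) [Field F] [NumberField F] [IsGalois ℚ F] where
  /-- an embedding of `F` in `ℂ` -/
  ι : F →+* ℂ
  /-- complex conjugation as an element of the Galois group -/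
  c : F ≃ₐ[ℚ] F
  ι_c : ∀ x, ι (c x) = starRingEnd ℂ (ι x)
  /-- a finite set of prime numbers which contains those which ramify in `F` -/
  S : Finset ℕ
  ram : ∀ p : ℕ, p.Prime → (p : ℤ) ∣ discr F → p ∈ S
  /-- an arithmetic Frobenius at `p`: for a prime ideal `Q` above `p` it satisfies
  `Frob_p y ≡ y ^ p` modulo `Q` for all integers `y` of `F` -/
  frob : ℕ → (F ≃ₐ[ℚ] F)
  isFrob : ∀ p : ℕ, p.Prime → p ∉ S → ∃ Q : Ideal (𝓞 F), Q.IsPrime ∧ (p : 𝓞 F) ∈ Q ∧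
    ∀ y : 𝓞 F, ∃ z ∈ Q, frob p (y : F) = (y : F) ^ p + (z : F)

/-- `a` is the leading coefficient of `ℓ` at `s₀`. -/
def Lead (ℓ : ℂ → ℂ) (s₀ a : ℂ) : Prop :=
  a ≠ 0 ∧ ∃ n : ℤ, Tendsto (fun s => ℓ s / (s - s₀) ^ n) (𝓝[≠] s₀) (𝓝 a)

namespace Data

variable {F : Type} [Field F] [NumberField F] [IsGalois ℚ F] (D : Data F)

/-- the Galois group of `F` over `ℚ` -/
abbrev G (_ : Data F) : Type := F ≃ₐ[ℚ] F

/-- the prime numbers outside `S` -/
abbrev Pr : Type := {p : ℕ // p.Prime ∧ p ∉ D.S}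

/-- **The Artin L-function.** `ℓ` is the Artin L-function of the character `f` of `Γ`, without the Euler factors
at the primes in `S`: it is meromorphic on `ℂ`, and for `Re s > 1` it is the exponential of the sum of
`f(Frob_p ^ m) p ^ (-m s) / m` over the prime numbers `p ∉ S` and the integers `m ≥ 1`, that is, the product of
`det (1 - Frob_p p ^ (-s))⁻¹`. -/
def IsL (f : (F ≃ₐ[ℚ] F) → ℂ) (ℓ : ℂ → ℂ) : Prop :=
  (∀ s, MeromorphicAt ℓ s) ∧ ∀ s : ℂ, 1 < s.re → ∃ z : ℂ, ℓ s = Complex.exp z ∧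
    HasSum (fun q : D.Pr × ℕ => f (D.frob q.1 ^ (q.2 + 1)) *
      ((q.1 : ℕ) : ℂ) ^ (-((q.2 + 1 : ℕ) : ℂ) * s) / ((q.2 + 1 : ℕ) : ℂ)) z

/-- The space `ℂ ⊗ V⁺` of the field `F`. The embeddings of `F` in `ℂ` are the `ι ∘ g`, `g ∈ Γ`, the coordinate of
`(a_τ) ∈ V⁺` at `τ = ι ∘ g` is `b(g) = a_τ / i ^ (k - 1)`, so that `b(c g) = (-1) ^ (k - 1) b(g)`. -/
def V (k : ℕ) : Submodule ℂ ((F ≃ₐ[ℚ] F) → ℂ) where
  carrier := {b | ∀ g, b (D.c * g) = (-1) ^ (k - 1) * b g}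
  add_mem' := by
    intro a b ha hb g
    rw [Pi.add_apply, Pi.add_apply, ha, hb, mul_add]
  zero_mem' := by
    intro g
    simp
  smul_mem' := by
    intro x b hb g
    rw [Pi.smul_apply, Pi.smul_apply, hb, smul_eq_mul, smul_eq_mul, mul_left_comm]

/-- The rational structure `ℚ ⊗ B⁺` given by `B⁺ = (⊕ ℚ (2πi) ^ (k - 1))⁺`: its coordinates are rational multiples of
`(2π) ^ (k - 1)`. -/
def B (k : ℕ) : Set (D.V k) := {b | ∀ g, ∃ q : ℚ, (b : (F ≃ₐ[ℚ] F) → ℂ) g = q * (2 * Real.pi : ℂ) ^ (k - 1)}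

/-- The Borel regulator of `F`: `H` is the image of `ℚ ⊗ K_{2k-1}(F)` in `V⁺`, and `α` is an automorphism of `V⁺` which
commutes with `Γ` and maps `B⁺` onto `H` (that is, an isomorphism of `ℚ[Γ]`-modules from `B⁺` to `ℚ ⊗ K_{2k-1}(F)`,
composed with the regulator). -/
structure Regulator (k : ℕ) where
  H : Submodule ℚ (D.V k)
  α : D.V k ≃ₗ[ℂ] D.V k
  real : ∀ b : D.V k, (∀ g, ((b : (F ≃ₐ[ℚ] F) → ℂ) g).im = 0) →
    ∀ g, ((α b : (F ≃ₐ[ℚ] F) → ℂ) g).im = 0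
  equivariant : ∀ (h : F ≃ₐ[ℚ] F) (b b' : D.V k),
    (∀ g, (b' : (F ≃ₐ[ℚ] F) → ℂ) g = (b : (F ≃ₐ[ℚ] F) → ℂ) (g * h)) →
    ∀ g, (α b' : (F ≃ₐ[ℚ] F) → ℂ) g = (α b : (F ≃ₐ[ℚ] F) → ℂ) (g * h)
  image : α '' D.B k = H

variable {D} {k : ℕ}

/-- The `χ`-part of `ℂ ⊗ V⁺`, for a linear character `χ` of the subgroup `W` of `Γ`: the `b` with `w b = χ(w) b` for
`w ∈ W`, where `(w b)(g) = b(g w)`. -/
def part (D : Data F) (k : ℕ) (W : Subgroup (F ≃ₐ[ℚ] F)) (χ : W →* ℂˣ) : Submodule ℂ (D.V k) where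
  carrier := {b | ∀ (g : F ≃ₐ[ℚ] F) (w : W), (b : (F ≃ₐ[ℚ] F) → ℂ) (g * w)
    = ((χ w : ℂˣ) : ℂ) * (b : (F ≃ₐ[ℚ] F) → ℂ) g}
  add_mem' := by
    intro a b ha hb g w
    change (a : (F ≃ₐ[ℚ] F) → ℂ) (g * w) + (b : (F ≃ₐ[ℚ] F) → ℂ) (g * w) = _ * (_ + _)
    rw [ha, hb, mul_add]
  zero_mem' := by
    intro g w
    change (0 : ℂ) = _ * (0 : ℂ)
    rw [mul_zero]
  smul_mem' := by
    intro x b hb g w
    change x * (b : (F ≃ₐ[ℚ] F) → ℂ) (g * w) = _ * (x * _)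
    rw [hb, mul_left_comm]

/-- translation by an element of `Γ` -/
def tr (D : Data F) (k : ℕ) (h : F ≃ₐ[ℚ] F) : D.V k →ₗ[ℂ] D.V k where
  toFun b := ⟨fun g => (b : (F ≃ₐ[ℚ] F) → ℂ) (g * h), fun g => by
    change (b : (F ≃ₐ[ℚ] F) → ℂ) (D.c * g * h) = _
    rw [mul_assoc]
    exact b.2 (g * h)⟩
  map_add' _ _ := rfl
  map_smul' _ _ := rfl

lemma Regulator.maps (R : D.Regulator k) (W : Subgroup (F ≃ₐ[ℚ] F)) (χ : W →* ℂˣ) :
    ∀ b ∈ part D k W χ, R.α b ∈ part D k W χ := by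
  intro b hb g w
  have h1 : tr D k w b = ((χ w : ℂˣ) : ℂ) • b := by
    apply Subtype.ext
    funext g
    exact hb g w
  have h2 := R.equivariant w b (tr D k w b) (fun _ => rfl) g
  rw [h1, map_smul] at h2
  exact h2.symm

/-- The determinant of the regulator on the `χ`-part. -/
noncomputable def Regulator.det (R : D.Regulator k) (W : Subgroup (F ≃ₐ[ℚ] F)) (χ : W →* ℂˣ) : ℂ :=
  LinearMap.det (M := part D k W χ) ((R.α : D.V k →ₗ[ℂ] D.V k).restrict (R.maps W χ))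

/-- The equality of the question for the fixed field `K` of the subgroup `W` of `Γ` and the character `χ` of `W`: for
one `e ≠ 0` in `E` and all embeddings `τ` of `E` in `ℂ` the determinant of the regulator on the `τχ`-part is
`τ(e)` times the leading coefficient at `s = 1 - k` of the Artin L-function of `τχ⁻¹` over `K` (of the induced
character over `ℚ`). -/
def Regulator.Holds (R : D.Regulator k) {E : Type} [Field E] (W : Subgroup (F ≃ₐ[ℚ] F)) (χ : W →* Eˣ) : Prop :=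
  ∃ e : E, e ≠ 0 ∧ ∀ τ : E →+* ℂ, ∃ (ℓ : ℂ → ℂ) (a : ℂ),
    D.IsL (R389.ind W (fun w => τ (((χ w)⁻¹ : Eˣ) : E))) ℓ ∧ Lead ℓ (1 - k) a ∧
    R.det W ((Units.map (τ : E →* ℂ)).comp χ) = τ e * a

/-- Borel's theorem: the determinant of the regulator of every subfield `M` of `F` (the fixed field of `U`) is a
nonzero rational multiple of the leading coefficient of the zeta function of `M` at `s = 1 - k`. -/
def Regulator.Borel (R : D.Regulator k) : Prop :=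
  ∀ U : Subgroup (F ≃ₐ[ℚ] F), R.Holds (E := ℚ) U 1

/-- Beilinson's theorem: the equality of the question over the base field `ℚ`. -/
def Regulator.Beilinson (R : D.Regulator k) : Prop :=
  ∀ (E : Type) [Field E] [NumberField E] (χ : (⊤ : Subgroup (F ≃ₐ[ℚ] F)) →* Eˣ), R.Holds ⊤ χ

end Data

end Pool.Agent.U157.BB
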