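import Mathlib
import Pool.Agent.U213.EC.Eig
import Pool.Agent.R389.Ind

/-!
# Determinants on isotypic subspaces
-/

set_option autoImplicit false
set_option linter.unusedSectionVars false

open Polynomial

namespace Pool.Agent.U157.BB

open Pool.Agent.R389 Pool.Agent.H302R2 Pool.Agent.H541R3.ART

section det

variable {n : ℕ}

lemma zsum {ι : Type*} {z : ℂ} (hz : z ≠ 0) (t : Finset ι) (f : ι → ℤ) :
    ∏ j ∈ t, z ^ f j = z ^ ∑ j ∈ t, f j := by
  classical
  induction t using Finset.induction_on with
  | empty => simp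
  | insert a s ha ih => rw [Finset.prod_insert ha, Finset.sum_insert ha, ih, zpow_add₀ hz]

/-- multiplicities of the eigenvalues from the traces of the powers -/
lemma count_zero {ι : Type*} (t : Finset ι) (k : ι → ℤ) (A : ι → Matrix (Fin n) (Fin n) ℂ) (C : ℂ)
    (h : ∀ i : ℕ, ∑ j ∈ t, (k j : ℂ) * (A j ^ i).trace = C) {z : ℂ} (hz : z ≠ 1) :
    ∑ j ∈ t, k j * ((A j).charpoly.roots.count z : ℤ) = 0 := by
  classical
  -- all polynomials
  have h1 : ∀ P : ℂ[X], ∑ j ∈ t, (k j : ℂ) * ((A j).charpoly.roots.map (fun r => P.eval r)).sum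
      = C * P.eval 1 := by
    intro P
    induction P using Polynomial.induction_on' with
    | add p q hp hq =>
      simp only [eval_add, Multiset.sum_map_add, mul_add, Finset.sum_add_distrib, hp, hq]
    | monomial i a =>
      simp only [eval_monomial, one_pow, mul_one]
      rw [← h i, Finset.sum_mul]
      refine Finset.sum_congr rfl fun j _ => ?_
      rw [Multiset.sum_map_mul_left, Pool.Agent.U213.EC.trace_pow_eq]
      ring
  -- a Lagrange polynomial
  let T : Finset ℂ := (insert 1 (t.biUnion fun j => (A j).charpoly.roots.toFinset)).erase z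
  let P : ℂ[X] := ∏ w ∈ T, (Polynomial.C (z - w)⁻¹ * (X - Polynomial.C w))
  have hPz : P.eval z = 1 := by
    rw [eval_prod]
    refine Finset.prod_eq_one fun w hw => ?_
    have hw' : z - w ≠ 0 := sub_ne_zero.mpr (Ne.symm (Finset.mem_erase.mp hw).1)
    simp [hw']
  have hP0 : ∀ w ∈ T, P.eval w = 0 := by
    intro w hw
    rw [eval_prod]
    refine Finset.prod_eq_zero hw ?_
    simp
  have hP1 : P.eval 1 = 0 := hP0 1 (Finset.mem_erase.mpr ⟨Ne.symm hz, Finset.mem_insert_self _ _⟩)
  have h2 := h1 P
  rw [hP1, mul_zero] at h2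
  have h3 : ∀ j ∈ t, ((A j).charpoly.roots.map (fun r => P.eval r)).sum
      = ((A j).charpoly.roots.count z : ℂ) := by
    intro j hj
    have h4 : (A j).charpoly.roots.map (fun r => P.eval r)
        = (A j).charpoly.roots.map (fun r => if r = z then (1 : ℂ) else 0) := by
      refine Multiset.map_congr rfl fun r hr => ?_
      by_cases hrz : r = z
      · rw [if_pos hrz, hrz, hPz]
      · rw [if_neg hrz]
        exact hP0 r (Finset.mem_erase.mpr ⟨hrz, Finset.mem_insert_of_mem
          (Finset.mem_biUnion.mpr ⟨j, hj, Multiset.mem_toFinset.mpr hr⟩)⟩)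
    rw [h4]
    have h5 : ∀ s : Multiset ℂ, (s.map (fun r => if r = z then (1 : ℂ) else 0)).sum
        = (s.count z : ℂ) := by
      intro s
      induction s using Multiset.induction with
      | empty => simp
      | cons b s ih =>
        rw [Multiset.map_cons, Multiset.sum_cons, ih, Multiset.count_cons]
        by_cases hb : b = z
        · rw [if_pos hb, if_pos hb.symm]; push_cast; ring
        · rw [if_neg hb, if_neg (Ne.symm hb)]; push_cast; ring
    exact h5 _
  have h6 : ((∑ j ∈ t, k j * ((A j).charpoly.roots.count z : ℤ) : ℤ) : ℂ) = 0 := by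
    rw [← h2]
    push_cast
    refine Finset.sum_congr rfl fun j hj => ?_
    rw [h3 j hj]
  exact_mod_cast h6

/-- determinants from the traces of the powers -/
theorem det_prod {ι : Type*} (t : Finset ι) (k : ι → ℤ) (A : ι → Matrix (Fin n) (Fin n) ℂ) (C : ℂ)
    (h : ∀ i : ℕ, ∑ j ∈ t, (k j : ℂ) * (A j ^ i).trace = C) (h0 : ∀ j ∈ t, (A j).det ≠ 0) :
    ∏ j ∈ t, (A j).det ^ k j = 1 := by
  classical
  let T : Finset ℂ := t.biUnion fun j => (A j).charpoly.roots.toFinset
  have h1 : ∀ j ∈ t, (A j).det = ∏ z ∈ T, z ^ (A j).charpoly.roots.count z := by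
    intro j hj
    rw [Matrix.det_eq_prod_roots_charpoly, Finset.prod_multiset_count]
    refine Finset.prod_subset (Finset.subset_biUnion_of_mem
      (fun j => (A j).charpoly.roots.toFinset) hj) ?_
    intro z _ hz
    rw [Multiset.mem_toFinset, ← Multiset.count_pos, not_lt, Nat.le_zero] at hz
    rw [hz, pow_zero]
  have hz0 : ∀ z ∈ T, z ≠ 0 := by
    intro z hz hz'
    obtain ⟨j, hj, hzj⟩ := Finset.mem_biUnion.mp hz
    apply h0 j hj
    rw [Matrix.det_eq_prod_roots_charpoly]
    exact Multiset.prod_eq_zero (by rw [← hz']; exact Multiset.mem_toFinset.mp hzj)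
  have h2 : ∏ j ∈ t, (A j).det ^ k j
      = ∏ z ∈ T, z ^ (∑ j ∈ t, k j * ((A j).charpoly.roots.count z : ℤ)) := by
    have h3 : ∀ j ∈ t, (A j).det ^ k j
        = ∏ z ∈ T, z ^ (k j * ((A j).charpoly.roots.count z : ℤ)) := by
      intro j hj
      rw [h1 j hj, ← Finset.prod_zpow]
      refine Finset.prod_congr rfl fun z _ => ?_
      rw [← zpow_natCast, ← zpow_mul, mul_comm]
    rw [Finset.prod_congr rfl h3, Finset.prod_comm]
    refine Finset.prod_congr rfl fun z hz => ?_
    exact zsum (hz0 z hz) t _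
  rw [h2]
  refine Finset.prod_eq_one fun z _ => ?_
  by_cases hz1 : z = 1
  · rw [hz1, one_zpow]
  · rw [count_zero t k A C h hz1, zpow_zero]

end det

end Pool.Agent.U157.BB
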