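import Mathlib
import Pool.Agent.U157.BB.Lin

/-!
# Relations between the determinants of an equivariant endomorphism
-/

set_option autoImplicit false
set_option linter.unusedSectionVars false

namespace Pool.Agent.U157.BB

open Pool.Agent.R389 Pool.Agent.H302R2 Pool.Agent.H541R3.ART Pool.Agent.W446.AS

section

variable {V : Type*} [AddCommGroup V] [Module ℂ V] [FiniteDimensional ℂ V]

lemma mix_pow {a e : Module.End ℂ V} (h1 : e * e = e) (h2 : a * e = e * a) (i : ℕ) :
    (a * e + (1 - e)) ^ i = a ^ i * e + (1 - e) := by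
  induction i with
  | zero => rw [pow_zero, pow_zero, one_mul, add_sub_cancel]
  | succ i ih =>
    rw [pow_succ, ih, pow_succ]
    have h3 : a ^ i * e * (a * e) = a ^ i * a * e := by
      rw [h2, ← mul_assoc, mul_assoc (a ^ i) e e, h1, mul_assoc, mul_assoc, h2]
    have h4 : e * (1 - e) = 0 := by rw [mul_sub, mul_one, h1, sub_self]
    have h5 : (1 - e) * e = 0 := by rw [sub_mul, one_mul, h1, sub_self]
    have h6 : (1 - e) * (1 - e) = 1 - e := by rw [mul_sub, mul_one, h5, sub_zero]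
    have h7 : (1 - e) * (a * e) = 0 := by rw [h2, ← mul_assoc, h5, zero_mul]
    rw [add_mul, mul_add, mul_add, h3, mul_assoc (a ^ i) e (1 - e), h4, mul_zero, h7, h6, add_zero,
      zero_add]

lemma det_mix {a e : Module.End ℂ V} {p : Submodule ℂ V} (hp : ∀ b, e b ∈ p) (he : ∀ b ∈ p, e b = b)
    (ha : ∀ b ∈ p, a b ∈ p) : LinearMap.det (a * e + (1 - e)) = LinearMap.det (a.restrict ha) := by
  have hmap : ∀ b ∈ p, (a * e + (1 - e)) b = a b := by
    intro b hb
    change a (e b) + (b - e b) = _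
    rw [he b hb, sub_self, add_zero]
  have hc : p ≤ p.comap (a * e + (1 - e)) := by
    intro b hb
    rw [Submodule.mem_comap, hmap b hb]
    exact ha b hb
  rw [LinearMap.det_eq_det_mul_det p (a * e + (1 - e)) hc]
  have h1 : (a * e + (1 - e)).restrict hc = a.restrict ha := by
    apply LinearMap.ext
    intro b
    apply Subtype.ext
    exact hmap b b.2
  have h2 : p.mapQ p (a * e + (1 - e)) hc = LinearMap.id := by
    apply Submodule.linearMap_qext
    apply LinearMap.ext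
    intro b
    change Submodule.Quotient.mk ((a * e + (1 - e)) b) = Submodule.Quotient.mk b
    rw [Submodule.Quotient.eq]
    have h3 : (a * e + (1 - e)) b - b = a (e b) - e b := by
      change a (e b) + (b - e b) - b = _
      abel
    rw [h3]
    exact Submodule.sub_mem _ (ha _ (hp b)) (hp b)
  rw [h2, LinearMap.det_id, mul_one, h1]

lemma det_restrict_ne (a : V ≃ₗ[ℂ] V) {p : Submodule ℂ V} (ha : ∀ b ∈ p, (a : V →ₗ[ℂ] V) b ∈ p) :
    LinearMap.det ((a : V →ₗ[ℂ] V).restrict ha) ≠ 0 := by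
  intro h
  have h1 := LinearMap.bot_lt_ker_of_det_eq_zero h
  apply h1.ne'
  rw [LinearMap.ker_eq_bot]
  intro x y hxy
  apply Subtype.ext
  apply a.injective
  exact congrArg Subtype.val hxy

variable {G : Type} [Group G] [Finite G] (T : G →* Module.End ℂ V)

/-- the projection to the part -/
noncomputable def proj (W : Subgroup G) (χ : W →* ℂˣ) : Module.End ℂ V :=
  (Nat.card W : ℂ)⁻¹ • ∑ᶠ w : W, (((χ w)⁻¹ : ℂˣ) : ℂ) • T w

lemma proj_eq (W : Subgroup G) [Fintype W] (χ : W →* ℂˣ) :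
    proj T W χ = (Nat.card W : ℂ)⁻¹ • ∑ w : W, (((χ w)⁻¹ : ℂˣ) : ℂ) • T w := by
  rw [proj, finsum_eq_sum_of_fintype]

lemma T_proj (W : Subgroup G) (χ : W →* ℂˣ) (w : W) :
    T w * proj T W χ = ((χ w : ℂˣ) : ℂ) • proj T W χ := by
  have : Fintype W := Fintype.ofFinite W
  rw [proj_eq, mul_smul_comm, smul_comm ((χ w : ℂˣ) : ℂ)]
  congr 1
  rw [Finset.mul_sum, Finset.smul_sum]
  rw [← Equiv.sum_comp (Equiv.mulLeft w) (fun v : W => ((χ w : ℂˣ) : ℂ) • ((((χ v)⁻¹ : ℂˣ) : ℂ) • T v))]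
  refine Finset.sum_congr rfl fun v _ => ?_
  rw [mul_smul_comm, smul_smul, ← map_mul]
  congr 1
  change _ = ((χ w : ℂˣ) : ℂ) * (((χ (w * v))⁻¹ : ℂˣ) : ℂ)
  rw [map_mul, mul_inv, Units.val_mul, ← mul_assoc, ← Units.val_mul, mul_inv_cancel, Units.val_one,
    one_mul]

lemma proj_of_mem (W : Subgroup G) (χ : W →* ℂˣ) {b : V} (hb : ∀ w : W, T w b = ((χ w : ℂˣ) : ℂ) • b) :
    proj T W χ b = b := by
  have : Fintype W := Fintype.ofFinite W
  have h1 : ∀ w : W, (((χ w)⁻¹ : ℂˣ) : ℂ) • T w b = b := by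
    intro w
    rw [hb, smul_smul, ← Units.val_mul, inv_mul_cancel, Units.val_one, one_smul]
  rw [proj_eq, LinearMap.smul_apply, LinearMap.sum_apply]
  simp only [LinearMap.smul_apply, h1]
  rw [Finset.sum_const, Finset.card_univ, ← Nat.card_eq_fintype_card, ← Nat.cast_smul_eq_nsmul ℂ,
    smul_smul, inv_mul_cancel₀, one_smul]
  exact Nat.cast_ne_zero.mpr Nat.card_pos.ne'

lemma proj_comm {a : Module.End ℂ V} (ha : ∀ g, a * T g = T g * a) (W : Subgroup G) (χ : W →* ℂˣ) :
    a * proj T W χ = proj T W χ * a := by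
  have : Fintype W := Fintype.ofFinite W
  rw [proj_eq, mul_smul_comm, smul_mul_assoc, Finset.mul_sum, Finset.sum_mul]
  congr 1
  refine Finset.sum_congr rfl fun w _ => ?_
  rw [mul_smul_comm, smul_mul_assoc, ha]

lemma proj_sq (W : Subgroup G) (χ : W →* ℂˣ) : proj T W χ * proj T W χ = proj T W χ := by
  apply LinearMap.ext
  intro b
  exact proj_of_mem T W χ fun w => congrArg (fun f : Module.End ℂ V => f b) (T_proj T W χ w)

lemma trace_class {a : Module.End ℂ V} (ha : ∀ g, a * T g = T g * a) (i : ℕ) (g x : G) :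
    LinearMap.trace ℂ V (a ^ i * T (x * g * x⁻¹)) = LinearMap.trace ℂ V (a ^ i * T g) := by
  have h1 : ∀ h, a ^ i * T h = T h * a ^ i := fun h =>
    (Commute.pow_left (show Commute a (T h) from ha h) i).eq
  have h2 : a ^ i * T (x * g * x⁻¹) = T x * (a ^ i * T g * T x⁻¹) := by
    rw [map_mul, map_mul, ← mul_assoc, ← mul_assoc, h1, mul_assoc, mul_assoc, mul_assoc]
  rw [h2, LinearMap.trace_mul_comm, mul_assoc, ← map_mul, inv_mul_cancel, map_one, mul_one]

lemma trace_proj {a : Module.End ℂ V} (ha : ∀ g, a * T g = T g * a) (W : Subgroup G) (χ : W →* ℂˣ)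
    (i : ℕ) : LinearMap.trace ℂ V (a ^ i * proj T W χ)
      = pr (ind W (fun w => (((χ w)⁻¹ : ℂˣ) : ℂ)))
        (fun g => LinearMap.trace ℂ V (a ^ i * T g⁻¹)) := by
  classical
  have : Fintype W := Fintype.ofFinite W
  rw [frob W _ (F := fun g => LinearMap.trace ℂ V (a ^ i * T g⁻¹)) ?_]
  · rw [pr_eq, proj_eq, mul_smul_comm, map_smul, Finset.mul_sum, map_sum, smul_eq_mul]
    congr 1
    refine Finset.sum_congr rfl fun w _ => ?_
    rw [mul_smul_comm, map_smul, smul_eq_mul]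
    simp
  · intro g x
    have h1 : (x * g * x⁻¹)⁻¹ = x * g⁻¹ * x⁻¹ := by group
    change LinearMap.trace ℂ V (a ^ i * T (x * g * x⁻¹)⁻¹) = _
    rw [h1, trace_class T ha]

/-- **Relations between the determinants.** -/
theorem det_rel {a : Module.End ℂ V} (ha : ∀ g, a * T g = T g * a) {J : Type*} (t : Finset J)
    (n : J → ℤ) (W : J → Subgroup G) (χ : ∀ j, W j →* ℂˣ) (p : J → Submodule ℂ V)
    (hp : ∀ j b, b ∈ p j ↔ ∀ w : W j, T w b = ((χ j w : ℂˣ) : ℂ) • b)
    (hmaps : ∀ j, ∀ b ∈ p j, a b ∈ p j)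
    (h : ∀ g, ∑ j ∈ t, (n j : ℂ) * ind (W j) (fun w => (((χ j w)⁻¹ : ℂˣ) : ℂ)) g = 0)
    (h0 : ∀ j ∈ t, LinearMap.det (a.restrict (hmaps j)) ≠ 0) :
    ∏ j ∈ t, LinearMap.det (a.restrict (hmaps j)) ^ n j = 1 := by
  classical
  have : Fintype G := Fintype.ofFinite G
  let b := Module.finBasis ℂ V
  have hdet : ∀ j, LinearMap.det (a * proj T (W j) (χ j) + (1 - proj T (W j) (χ j)))
      = LinearMap.det (a.restrict (hmaps j)) := by
    intro j
    refine det_mix (fun x => (hp j _).mpr fun w => ?_) (fun x hx => proj_of_mem T _ _ ((hp j x).mp hx)) _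
    exact congrArg (fun f : Module.End ℂ V => f x) (T_proj T (W j) (χ j) w)
  have h1 : ∀ i : ℕ, ∑ j ∈ t, (n j : ℂ) * LinearMap.trace ℂ V (a ^ i * proj T (W j) (χ j)) = 0 := by
    intro i
    have h2 : ∑ j ∈ t, (n j : ℂ) * LinearMap.trace ℂ V (a ^ i * proj T (W j) (χ j))
        = pr (fun g => ∑ j ∈ t, (n j : ℂ) * ind (W j) (fun w => (((χ j w)⁻¹ : ℂˣ) : ℂ)) g)
          (fun g => LinearMap.trace ℂ V (a ^ i * T g⁻¹)) := by
      simp only [trace_proj T ha, pr_eq]
      simp only [Finset.mul_sum, Finset.sum_mul]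
      rw [Finset.sum_comm]
      refine Finset.sum_congr rfl fun g _ => Finset.sum_congr rfl fun j _ => ?_
      ring
    rw [h2]
    have h3 : (fun g => ∑ j ∈ t, (n j : ℂ) * ind (W j) (fun w => (((χ j w)⁻¹ : ℂˣ) : ℂ)) g)
        = fun _ => 0 := by
      funext g
      exact h g
    rw [h3, pr_eq]
    simp
  have key := det_prod t n (fun j => LinearMap.toMatrix b b
    (a * proj T (W j) (χ j) + (1 - proj T (W j) (χ j))))
    ((∑ j ∈ t, (n j : ℂ)) * LinearMap.trace ℂ V 1) ?_ ?_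
  · rw [← key]
    refine Finset.prod_congr rfl fun j _ => ?_
    rw [LinearMap.det_toMatrix, hdet]
  · intro i
    have h2 : ∀ j, (LinearMap.toMatrix b b (a * proj T (W j) (χ j) + (1 - proj T (W j) (χ j))) ^ i).trace
        = LinearMap.trace ℂ V (a ^ i * proj T (W j) (χ j)) +
          (LinearMap.trace ℂ V 1 - LinearMap.trace ℂ V (a ^ 0 * proj T (W j) (χ j))) := by
      intro j
      rw [LinearMap.toMatrix_pow, ← LinearMap.trace_eq_matrix_trace ℂ b,
        mix_pow (proj_sq T _ _) (proj_comm T ha _ _), map_add, map_sub, pow_zero, one_mul]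
    simp only [h2, mul_add, mul_sub, Finset.sum_add_distrib, Finset.sum_sub_distrib]
    rw [h1 i, h1 0, sub_zero, zero_add, Finset.sum_mul]
  · intro j hj
    rw [LinearMap.det_toMatrix, hdet]
    exact h0 j hj

end

end Pool.Agent.U157.BB
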