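import Mathlib
import Pool.Agent.U157.BB.Defs
import Pool.Agent.U157.BB.Rel

/-!
# The conjecture and relations between induced characters
-/

set_option autoImplicit false
set_option linter.unusedSectionVars false

open Filter Topology NumberField

namespace Pool.Agent.U157.BB

open Pool.Agent.R389 Pool.Agent.H302R2 Pool.Agent.H541R3.ART Pool.Agent.W446.AS

lemma Lead.prod {J : Type*} (t : Finset J) (n : J → ℤ) (ℓ : J → ℂ → ℂ) (a : J → ℂ) (c : ℂ)
    (h : ∀ j ∈ t, Lead (ℓ j) c (a j)) :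
    Lead (fun z => ∏ j ∈ t, ℓ j z ^ n j) c (∏ j ∈ t, a j ^ n j) := by
  classical
  choose! m hm using fun j (hj : j ∈ t) => (h j hj).2
  refine ⟨Finset.prod_ne_zero_iff.mpr fun j hj => zpow_ne_zero _ (h j hj).1,
    ∑ j ∈ t, m j * n j, ?_⟩
  have h1 : Tendsto (fun s => ∏ j ∈ t, (ℓ j s / (s - c) ^ m j) ^ n j) (𝓝[≠] c)
      (𝓝 (∏ j ∈ t, a j ^ n j)) :=
    tendsto_finsetProd _ fun j hj => (hm j hj).zpow₀ _ (Or.inl (h j hj).1)
  refine h1.congr' ?_
  filter_upwards [self_mem_nhdsWithin] with s hs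
  have hs' : s - c ≠ 0 := sub_ne_zero.mpr hs
  rw [← zsum hs', ← Finset.prod_div_distrib]
  refine Finset.prod_congr rfl fun j _ => ?_
  rw [div_zpow, zpow_mul]

section ind

variable {K : Type*} [Field K] {G : Type} [Group G] [Finite G]

lemma ind_inv (W : Subgroup G) (f : W → K) (g : G) : ind W (fun w => f w⁻¹) g = ind W f g⁻¹ := by
  classical
  have : Fintype G := Fintype.ofFinite G
  rw [ind_eq, ind_eq]
  congr 1
  refine Finset.sum_congr rfl fun x _ => ?_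
  have h1 : x⁻¹ * g⁻¹ * x = (x⁻¹ * g * x)⁻¹ := by group
  rw [h1]
  by_cases h : x⁻¹ * g * x ∈ W
  · rw [ext_mem _ _ h, ext_mem _ _ (W.inv_mem h)]
    rfl
  · rw [ext_not _ _ h, ext_not _ _ fun h' => h (by simpa using W.inv_mem h')]

end ind

namespace Data

variable {F : Type} [Field F] [NumberField F] [IsGalois ℚ F] {D : Data F} {k : ℕ}

lemma IsL.prod {J : Type*} (t : Finset J) (n : J → ℤ) (f : J → (F ≃ₐ[ℚ] F) → ℂ) (ℓ : J → ℂ → ℂ)
    (h : ∀ j ∈ t, D.IsL (f j) (ℓ j)) {φ : (F ≃ₐ[ℚ] F) → ℂ}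
    (hφ : ∀ g, φ g = ∑ j ∈ t, (n j : ℂ) * f j g) :
    D.IsL φ (fun z => ∏ j ∈ t, ℓ j z ^ n j) := by
  classical
  refine ⟨fun s => MeromorphicAt.fun_prod fun j hj => ((h j hj).1 s).fun_zpow _, fun s hs => ?_⟩
  choose! z h1 h2 using fun j (hj : j ∈ t) => (h j hj).2 s hs
  refine ⟨∑ j ∈ t, (n j : ℂ) * z j, ?_, ?_⟩
  · rw [Complex.exp_sum]
    refine Finset.prod_congr rfl fun j hj => ?_
    rw [h1 j hj, ← Complex.exp_int_mul]
  · have h3 := hasSum_sum fun j hj => (h2 j hj).mul_left (n j : ℂ)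
    have h4 : (fun q : D.Pr × ℕ => φ (D.frob q.1 ^ (q.2 + 1)) *
        ((q.1 : ℕ) : ℂ) ^ (-((q.2 + 1 : ℕ) : ℂ) * s) / ((q.2 + 1 : ℕ) : ℂ))
        = fun q : D.Pr × ℕ => ∑ j ∈ t, (n j : ℂ) * (f j (D.frob q.1 ^ (q.2 + 1)) *
          ((q.1 : ℕ) : ℂ) ^ (-((q.2 + 1 : ℕ) : ℂ) * s) / ((q.2 + 1 : ℕ) : ℂ)) := by
      funext q
      rw [hφ, Finset.sum_mul, Finset.sum_div]
      refine Finset.sum_congr rfl fun j _ => ?_
      ring
    rw [h4]
    exact h3

/-- the action of the Galois group on `V` -/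
def T (D : Data F) (k : ℕ) : (F ≃ₐ[ℚ] F) →* Module.End ℂ (D.V k) where
  toFun := tr D k
  map_one' := by
    apply LinearMap.ext
    intro b
    apply Subtype.ext
    funext g
    change (b : (F ≃ₐ[ℚ] F) → ℂ) (g * 1) = _
    rw [mul_one]
    rfl
  map_mul' h h' := by
    apply LinearMap.ext
    intro b
    apply Subtype.ext
    funext g
    change (b : (F ≃ₐ[ℚ] F) → ℂ) (g * (h * h')) = (b : (F ≃ₐ[ℚ] F) → ℂ) (g * h * h')
    rw [mul_assoc]

lemma mem_part (W : Subgroup (F ≃ₐ[ℚ] F)) (χ : W →* ℂˣ) (b : D.V k) :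
    b ∈ part D k W χ ↔ ∀ w : W, T D k w b = ((χ w : ℂˣ) : ℂ) • b := by
  constructor
  · intro h w
    apply Subtype.ext
    funext g
    exact h g w
  · intro h g w
    exact congrArg (fun x : D.V k => (x : (F ≃ₐ[ℚ] F) → ℂ) g) (h w)

lemma Regulator.det_ne (R : D.Regulator k) (W : Subgroup (F ≃ₐ[ℚ] F)) (χ : W →* ℂˣ) :
    R.det W χ ≠ 0 := det_restrict_ne R.α (R.maps W χ)

theorem det_rel' (R : D.Regulator k) {J : Type*} (t : Finset J) (n : J → ℤ)
    (W : J → Subgroup (F ≃ₐ[ℚ] F)) (χ : ∀ j, W j →* ℂˣ)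
    (h : ∀ g, ∑ j ∈ t, (n j : ℂ) * ind (W j) (fun w => (((χ j w)⁻¹ : ℂˣ) : ℂ)) g = 0) :
    ∏ j ∈ t, R.det (W j) (χ j) ^ n j = 1 :=
  det_rel (T D k) (a := (R.α : D.V k →ₗ[ℂ] D.V k)) (fun g => by
      apply LinearMap.ext
      intro b
      apply Subtype.ext
      funext x
      exact R.equivariant g b (tr D k g b) (fun _ => rfl) x) t n W χ
    (fun j => part D k (W j) (χ j)) (fun j b => mem_part (W j) (χ j) b) (fun j => R.maps (W j) (χ j)) h
    (fun j _ => R.det_ne (W j) (χ j))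

/-- **The conjecture and relations.** -/
theorem holds_of_rel (R : D.Regulator k) {E : Type} [Field E] {J : Type*} (t : Finset J) (n : J → ℤ)
    (U : J → Subgroup (F ≃ₐ[ℚ] F)) (ψ : ∀ j, U j →* Eˣ) (hU : ∀ j ∈ t, R.Holds (U j) (ψ j))
    (W : Subgroup (F ≃ₐ[ℚ] F)) (χ : W →* Eˣ)
    (hrel : ∀ g, ind W (fun w => ((χ w : Eˣ) : E)) g
      = ∑ j ∈ t, (n j : E) * ind (U j) (fun u => ((ψ j u : Eˣ) : E)) g) : R.Holds W χ := by
  classical
  choose! e he0 he using hU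
  refine ⟨∏ j ∈ t, e j ^ n j, Finset.prod_ne_zero_iff.mpr fun j hj => zpow_ne_zero _ (he0 j hj),
    fun τ => ?_⟩
  choose! ℓ a h1 h2 h3 using fun j (hj : j ∈ t) => he j hj τ
  have hrel' : ∀ g, ind W (fun w => τ (((χ w)⁻¹ : Eˣ) : E)) g
      = ∑ j ∈ t, (n j : ℂ) * ind (U j) (fun u => τ (((ψ j u)⁻¹ : Eˣ) : E)) g := by
    intro g
    have h4 := congrArg τ (hrel g⁻¹)
    rw [← ind_inv, map_sum] at h4
    rw [ind_map] at h4
    have h5 : (fun w : W => τ (((χ w)⁻¹ : Eˣ) : E)) = fun w : W => τ ((χ w⁻¹ : Eˣ) : E) := by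
      funext w
      rw [map_inv]
    rw [h5, h4]
    refine Finset.sum_congr rfl fun j _ => ?_
    rw [map_mul, map_intCast, ← ind_inv, ind_map]
    congr 2
    funext w
    rw [map_inv]
  refine ⟨fun z => ∏ j ∈ t, ℓ j z ^ n j, ∏ j ∈ t, a j ^ n j,
    IsL.prod t n _ ℓ h1 hrel', Lead.prod t n ℓ a _ h2, ?_⟩
  have key := det_rel' R (J := Option J) (Finset.insertNone t) (fun j => j.elim (-1) n)
    (fun j => j.elim W U) (fun j => match j with
      | none => (Units.map (τ : E →* ℂ)).comp χ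
      | some j => (Units.map (τ : E →* ℂ)).comp (ψ j)) ?_
  · rw [Finset.prod_insertNone] at key
    change R.det W ((Units.map (τ : E →* ℂ)).comp χ) ^ (-1 : ℤ) *
      ∏ j ∈ t, R.det (U j) ((Units.map (τ : E →* ℂ)).comp (ψ j)) ^ n j = 1 at key
    have h4 : R.det W ((Units.map (τ : E →* ℂ)).comp χ)
        = ∏ j ∈ t, R.det (U j) ((Units.map (τ : E →* ℂ)).comp (ψ j)) ^ n j := by
      rw [zpow_neg_one] at key
      field_simp [R.det_ne] at key
      have h5 := R.det_ne W ((Units.map (τ : E →* ℂ)).comp χ)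
      exact key.symm
    rw [h4, map_prod, ← Finset.prod_mul_distrib]
    refine Finset.prod_congr rfl fun j hj => ?_
    rw [h3 j hj, mul_zpow, map_zpow₀]
  · intro g
    rw [Finset.sum_insertNone]
    change (((-1 : ℤ) : ℂ)) * ind W (fun w => τ (((χ w)⁻¹ : Eˣ) : E)) g +
      ∑ j ∈ t, (n j : ℂ) * ind (U j) (fun u => τ (((ψ j u)⁻¹ : Eˣ) : E)) g = 0
    rw [hrel' g]
    push_cast
    ring

end Data

end Pool.Agent.U157.BB
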