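import Mathlib
import Pool.Agent.R389.Ind

/-!
# Characters of prime order and permutation characters
-/

set_option autoImplicit false
set_option linter.unusedSectionVars false

namespace Pool.Agent.U157.BB

open Pool.Agent.R389

section hol

variable {P : Type} [Group P] [Finite P] {K : Type*} [Field K]

/-- the conjugate of an element of a normal subgroup -/
def cj (A : Subgroup P) [A.Normal] (x : P) (a : A) : A :=
  ⟨x * a * x⁻¹, (inferInstance : A.Normal).conj_mem a a.2 x⟩

variable {p : ℕ} (hp : p.Prime) (A : Subgroup P) [A.Normal] (χ : A →* Kˣ) (h1 : ∀ a, χ a ^ p = 1)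
  (h2 : ∃ a, χ a ≠ 1) (h3 : ∀ x : P, ∃ t : ℕ, ∀ a : A, χ (cj A x a) = χ a ^ t)
  (h4 : ∀ x : P, (∀ a : A, χ (cj A x a) = χ a) → x ∈ A)
  (h5 : Nat.card P = (p - 1) * Nat.card A)

include h1 hp in
lemma pow_one_of {u : Kˣ} (hu : u ^ p = 1) {a : A} (ha : χ a ≠ 1) : ∃ j : ℕ, u = χ a ^ j := by
  have h6 : IsPrimitiveRoot ((χ a : Kˣ) : K) p := by
    have := Fact.mk hp
    have h7 : orderOf (χ a) = p := orderOf_eq_prime (h1 a) ha
    have h8 := IsPrimitiveRoot.orderOf (χ a)
    rw [h7] at h8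
    exact (IsPrimitiveRoot.coe_units_iff).mpr h8
  have h9 : (u : K) ^ p = 1 := by rw [← Units.val_pow_eq_pow_val, hu, Units.val_one]
  have : NeZero p := ⟨hp.ne_zero⟩
  obtain ⟨j, -, hj⟩ := h6.eq_pow_of_pow_eq_one h9
  refine ⟨j, Units.ext ?_⟩
  rw [Units.val_pow_eq_pow_val, hj]

include hp h1 h3 in
/-- the action on the values is given by one value -/
lemma conj_of_one {x : P} {a : A} (ha : χ a ≠ 1) (h : χ (cj A x a) = χ a) (b : A) :
    χ (cj A x b) = χ b := by
  obtain ⟨t, ht⟩ := h3 x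
  obtain ⟨j, hj⟩ := pow_one_of hp A χ h1 (h1 b) ha
  rw [ht, hj, ← pow_mul, mul_comm, pow_mul, ← ht, h]

/-- the kernel -/
def ker' : Subgroup P := χ.ker.map A.subtype

lemma mem_ker' {x : P} : x ∈ ker' A χ ↔ ∃ h : x ∈ A, χ ⟨x, h⟩ = 1 := by
  constructor
  · rintro ⟨a, ha, rfl⟩
    exact ⟨a.2, ha⟩
  · rintro ⟨h, h'⟩
    exact ⟨⟨x, h⟩, h', rfl⟩

include h3 in
lemma ker'_normal : (ker' A χ).Normal := by
  refine ⟨fun n hn g => ?_⟩
  obtain ⟨h, h'⟩ := (mem_ker' A χ).mp hn
  refine (mem_ker' A χ).mpr ⟨(inferInstance : A.Normal).conj_mem n h g, ?_⟩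
  obtain ⟨t, ht⟩ := h3 g
  have := ht ⟨n, h⟩
  rw [h', one_pow] at this
  exact this

include hp h1 h2 in
lemma card_range : Nat.card χ.range = p := by
  obtain ⟨a, ha⟩ := h2
  have := Fact.mk hp
  have h7 : orderOf (χ a) = p := orderOf_eq_prime (h1 a) ha
  have h8 : χ.range = Subgroup.zpowers (χ a) := by
    apply le_antisymm
    · rintro _ ⟨b, rfl⟩
      obtain ⟨j, hj⟩ := pow_one_of hp A χ h1 (h1 b) ha
      rw [hj]
      exact Subgroup.pow_mem _ (Subgroup.mem_zpowers _) j
    · rw [Subgroup.zpowers_le]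
      exact ⟨a, rfl⟩
  rw [h8, Nat.card_zpowers, h7]

include hp h1 h2 in
lemma card_A : Nat.card A = p * Nat.card (ker' A χ) := by
  have h6 : Nat.card (ker' A χ) = Nat.card χ.ker :=
    (Nat.card_congr (χ.ker.equivMapOfInjective A.subtype A.subtype_injective).toEquiv).symm
  rw [h6, ← card_range hp A χ h1 h2, ← Nat.card_congr (QuotientGroup.quotientKerEquivRange χ).toEquiv,
    ← Subgroup.card_eq_card_quotient_mul_card_subgroup]

include hp h1 h2 h3 h5 in
/-- the complement -/
lemma exists_compl : ∃ U : Subgroup P, ker' A χ ≤ U ∧ (∀ x ∈ U, x ∈ A → x ∈ ker' A χ) ∧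
    (∀ z : P, ∃ a ∈ A, a⁻¹ * z ∈ U) ∧ Nat.card U = (p - 1) * Nat.card (ker' A χ) := by
  have hn := ker'_normal A χ h3
  let C := ker' A χ
  let π := QuotientGroup.mk' C
  have hC : C ≤ A := by
    intro x hx
    exact ((mem_ker' A χ).mp hx).1
  have hcardA := card_A hp A χ h1 h2
  have hC0 : 0 < Nat.card C := Nat.card_pos
  have hN : Nat.card (A.map π) = p := by
    have h6 : Nat.card A = Nat.card (A.map π) * Nat.card C := by
      have h7 := Subgroup.card_eq_card_quotient_mul_card_subgroup (π.comp A.subtype).ker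
      rw [Nat.card_congr (QuotientGroup.quotientKerEquivRange (π.comp A.subtype)).toEquiv] at h7
      rw [h7]
      congr 1
      · rw [MonoidHom.range_comp, Subgroup.range_subtype]
      · have h8 : (π.comp A.subtype).ker.map A.subtype = C := by
          ext x
          constructor
          · rintro ⟨a, ha, rfl⟩
            have h9 : π (a : P) = 1 := ha
            rwa [QuotientGroup.mk'_apply, QuotientGroup.eq_one_iff] at h9
          · intro hx
            refine ⟨⟨x, hC hx⟩, ?_, rfl⟩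
            change π x = 1
            rwa [QuotientGroup.mk'_apply, QuotientGroup.eq_one_iff]
        refine Eq.trans ?_ (congrArg (fun X : Subgroup P => Nat.card X) h8)
        exact Nat.card_congr ((π.comp A.subtype).ker.equivMapOfInjective A.subtype A.subtype_injective).toEquiv
    have h9 : p * Nat.card C = Nat.card (A.map π) * Nat.card C := by rw [← h6]; exact hcardA.symm
    exact (Nat.eq_of_mul_eq_mul_right hC0 h9).symm
  have hQ : Nat.card (P ⧸ C) = p * (p - 1) := by
    have h6 := Subgroup.card_eq_card_quotient_mul_card_subgroup C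
    rw [h5, hcardA] at h6
    have h7 : p * (p - 1) * Nat.card C = Nat.card (P ⧸ C) * Nat.card C := by
      rw [← h6]; ring
    exact (Nat.eq_of_mul_eq_mul_right hC0 h7).symm
  have hind : (A.map π).index = p - 1 := by
    have h6 := (A.map π).card_mul_index
    rw [hN, hQ] at h6
    exact Nat.eq_of_mul_eq_mul_left hp.pos h6
  have hnorm : (A.map π).Normal := Subgroup.Normal.map inferInstance π (QuotientGroup.mk'_surjective C)
  obtain ⟨M, hM⟩ := Subgroup.exists_right_complement'_of_coprime (N := A.map π) (by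
    rw [hN, hind]
    exact (Nat.Prime.coprime_iff_not_dvd hp).mpr fun h =>
      absurd (Nat.le_of_dvd (Nat.sub_pos_of_lt hp.one_lt) h) (by have := hp.pos; omega))
  refine ⟨M.comap π, ?_, ?_, ?_, ?_⟩
  · intro x hx
    have h6 : π x = 1 := by rwa [QuotientGroup.mk'_apply, QuotientGroup.eq_one_iff]
    rw [Subgroup.mem_comap, h6]
    exact M.one_mem
  · intro x hx hxA
    have h6 : π x ∈ A.map π ⊓ M := ⟨⟨x, hxA, rfl⟩, hx⟩
    rw [hM.disjoint.eq_bot, Subgroup.mem_bot] at h6
    rwa [QuotientGroup.mk'_apply, QuotientGroup.eq_one_iff] at h6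
  · intro z
    obtain ⟨⟨n, m⟩, hnm⟩ := hM.2 (π z)
    obtain ⟨a, ha, han⟩ := n.2
    refine ⟨a, ha, ?_⟩
    rw [Subgroup.mem_comap, map_mul, map_inv, han]
    have h6 : (n : P ⧸ C) * m = π z := hnm
    rw [← h6, inv_mul_cancel_left]
    exact m.2
  · have h6 := hM.card_mul_card
    rw [hN, hQ] at h6
    have h7 : Nat.card M = p - 1 := Nat.eq_of_mul_eq_mul_left hp.pos h6
    have hp1 : 0 < p - 1 := Nat.sub_pos_of_lt hp.one_lt
    have h8 : M.index = p := by
      have h9 := M.card_mul_index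
      rw [h7, hQ, mul_comm p] at h9
      exact Nat.eq_of_mul_eq_mul_left hp1 h9
    have h10 := (M.comap π).card_mul_index
    rw [M.index_comap_of_surjective (QuotientGroup.mk'_surjective C), h8, h5, hcardA] at h10
    have h11 : Nat.card (M.comap π) * p = ((p - 1) * Nat.card (ker' A χ)) * p := by rw [h10]; ring
    exact Nat.eq_of_mul_eq_mul_right hp.pos h11

include hp h1 h3 h4 in
/-- the values of a nontrivial character at the conjugates -/
lemma fiber_le [Fintype P] [DecidableEq P] {y : A} (hy : χ y ≠ 1) (u : Kˣ) [DecidableEq Kˣ] :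
    (Finset.univ.filter fun x : P => χ (cj A x⁻¹ y) = u).card ≤ Nat.card A := by
  classical
  have : Fintype A := Fintype.ofFinite A
  by_cases hne : (Finset.univ.filter fun x : P => χ (cj A x⁻¹ y) = u).Nonempty
  · obtain ⟨x', hx'⟩ := hne
    rw [Finset.mem_filter] at hx'
    have hne1 : ∀ x : P, χ (cj A x⁻¹ y) ≠ 1 := by
      intro x hx
      apply hy
      obtain ⟨t, ht⟩ := h3 x
      have h6 := ht (cj A x⁻¹ y)
      have h7 : cj A x (cj A x⁻¹ y) = y := by
        apply Subtype.ext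
        change x * (x⁻¹ * y * x⁻¹⁻¹) * x⁻¹ = (y : P)
        group
      rw [h7, hx, one_pow] at h6
      exact h6
    have key : ∀ x ∈ Finset.univ.filter (fun x : P => χ (cj A x⁻¹ y) = u), x'⁻¹ * x ∈ A := by
      intro x hx
      rw [Finset.mem_filter] at hx
      refine h4 _ (conj_of_one hp A χ h1 h3 (hne1 x) ?_)
      have h6 : cj A (x'⁻¹ * x) (cj A x⁻¹ y) = cj A x'⁻¹ y := by
        apply Subtype.ext
        change x'⁻¹ * x * (x⁻¹ * y * x⁻¹⁻¹) * (x'⁻¹ * x)⁻¹ = x'⁻¹ * y * x'⁻¹⁻¹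
        group
      rw [h6, hx'.2, hx.2]
    have h7 : (Finset.univ.filter (fun x : P => x ∈ A)).card = Nat.card A := by
      rw [Nat.card_eq_fintype_card, Fintype.card_subtype]
    rw [← h7]
    refine Finset.card_le_card_of_injOn (fun x => x'⁻¹ * x) (fun x hx => ?_) (fun x _ z _ h => ?_)
    · simp only [Finset.coe_filter, Finset.mem_univ, true_and, Set.mem_ofPred_eq]
      exact key x hx
    · exact mul_left_cancel h
  · rw [Finset.not_nonempty_iff_eq_empty] at hne
    rw [hne]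
    simp

include hp h1 h3 h4 h5 in
lemma sum_conj [Fintype P] {y : A} (hy : χ y ≠ 1) :
    ∑ x : P, ((χ (cj A x⁻¹ y) : Kˣ) : K) = -(Nat.card A : K) := by
  classical
  have hne1 : ∀ x : P, χ (cj A x⁻¹ y) ≠ 1 := by
    intro x hx
    apply hy
    obtain ⟨t, ht⟩ := h3 x
    have h6 := ht (cj A x⁻¹ y)
    have h7 : cj A x (cj A x⁻¹ y) = y := by
      apply Subtype.ext
      change x * (x⁻¹ * y * x⁻¹⁻¹) * x⁻¹ = (y : P)
      group
    rw [h7, hx, one_pow] at h6
    exact h6
  have hex : ∀ x : P, ∃ j ∈ Finset.Ico 1 p, χ (cj A x⁻¹ y) = χ y ^ j := by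
    intro x
    obtain ⟨j, hj⟩ := pow_one_of hp A χ h1 (h1 (cj A x⁻¹ y)) hy
    refine ⟨j % p, Finset.mem_Ico.mpr ⟨?_, Nat.mod_lt _ hp.pos⟩, ?_⟩
    · rcases Nat.eq_zero_or_pos (j % p) with h | h
      · exfalso
        apply hne1 x
        rw [hj, ← Nat.div_add_mod j p, h, add_zero, pow_mul, h1, one_pow]
      · exact h
    · rw [hj]
      conv_lhs => rw [← Nat.div_add_mod j p, pow_add, pow_mul, h1, one_pow, one_mul]
  choose φ hφ1 hφ2 using hex
  have hle : ∀ j ∈ Finset.Ico 1 p, (Finset.univ.filter fun x => φ x = j).card ≤ Nat.card A := by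
    intro j _
    refine (Finset.card_le_card ?_).trans (fiber_le hp A χ h1 h3 h4 hy (χ y ^ j))
    intro x hx
    rw [Finset.mem_filter] at hx ⊢
    exact ⟨hx.1, by rw [hφ2 x, hx.2]⟩
  have hsum : ∑ j ∈ Finset.Ico 1 p, (Finset.univ.filter fun x => φ x = j).card
      = ∑ j ∈ Finset.Ico 1 p, Nat.card A := by
    rw [← Finset.card_eq_sum_card_fiberwise (fun x _ => hφ1 x), Finset.card_univ,
      ← Nat.card_eq_fintype_card, h5, Finset.sum_const, Nat.card_Ico, smul_eq_mul]
  have heq := (Finset.sum_eq_sum_iff_of_le hle).mp hsum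
  have h6 : ∑ x : P, ((χ (cj A x⁻¹ y) : Kˣ) : K)
      = ∑ j ∈ Finset.Ico 1 p, (Nat.card A : K) * ((χ y : Kˣ) : K) ^ j := by
    rw [← Finset.sum_fiberwise_of_maps_to (fun x _ => hφ1 x)]
    refine Finset.sum_congr rfl fun j hj => ?_
    rw [← heq j hj, ← nsmul_eq_mul, ← Finset.sum_const]
    refine Finset.sum_congr rfl fun x hx => ?_
    rw [hφ2 x, (Finset.mem_filter.mp hx).2, Units.val_pow_eq_pow_val]
  have hprim : IsPrimitiveRoot ((χ y : Kˣ) : K) p := by
    have := Fact.mk hp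
    have h7 : orderOf (χ y) = p := orderOf_eq_prime (h1 y) hy
    have h8 := IsPrimitiveRoot.orderOf (χ y)
    rw [h7] at h8
    exact (IsPrimitiveRoot.coe_units_iff).mpr h8
  have h7 := hprim.geom_sum_eq_zero hp.one_lt
  rw [Finset.range_eq_Ico, Finset.sum_eq_sum_Ico_succ_bot hp.pos, pow_zero] at h7
  rw [h6, ← Finset.mul_sum]
  have h8 : ∑ j ∈ Finset.Ico 1 p, ((χ y : Kˣ) : K) ^ j = -1 := by
    linear_combination h7
  rw [h8, mul_neg_one]

include hp h1 h2 h3 h4 h5 in
/-- **A character of prime order as the difference of two permutation characters.** -/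
theorem hol_id [CharZero K] : ∃ U : Subgroup P, ∀ y : P,
    ind A (fun a => ((χ a : Kˣ) : K)) y = ind U (fun _ => (1 : K)) y - 1 := by
  classical
  have : Fintype P := Fintype.ofFinite P
  obtain ⟨U, hCU, hUA, hU, hcU⟩ := exists_compl hp A χ h1 h2 h3 h5
  have hn := ker'_normal A χ h3
  have hC : ker' A χ ≤ A := by
    intro x hx
    exact ((mem_ker' A χ).mp hx).1
  have hcardA := card_A hp A χ h1 h2
  have hC0 : 0 < Nat.card (ker' A χ) := Nat.card_pos
  have hp1 : 0 < p - 1 := Nat.sub_pos_of_lt hp.one_lt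
  have hAK : (Nat.card A : K) ≠ 0 := Nat.cast_ne_zero.mpr Nat.card_pos.ne'
  have hUK : (Nat.card U : K) ≠ 0 := Nat.cast_ne_zero.mpr Nat.card_pos.ne'
  let N : P → ℕ := fun y => (Finset.univ.filter fun x : P => x⁻¹ * y * x ∈ U).card
  have hSU : ∀ y, ∑ x : P, ext U (fun _ => (1 : K)) (x⁻¹ * y * x) = (N y : K) := by
    intro y
    change _ = (((Finset.univ.filter fun x : P => x⁻¹ * y * x ∈ U).card : ℕ) : K)
    rw [Finset.card_filter, Nat.cast_sum]
    refine Finset.sum_congr rfl fun x _ => ?_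
    by_cases h : x⁻¹ * y * x ∈ U
    · rw [ext_mem _ _ h, if_pos h, Nat.cast_one]
    · rw [ext_not _ _ h, if_neg h, Nat.cast_zero]
  have hNle : ∀ y, y ∉ A → N y ≤ Nat.card U := by
    intro y hy
    by_cases hne : (Finset.univ.filter fun x : P => x⁻¹ * y * x ∈ U).Nonempty
    · obtain ⟨x₁, hx₁⟩ := hne
      rw [Finset.mem_filter] at hx₁
      have hx₁ := hx₁.2
      have hcU' : (Finset.univ.filter (fun x : P => x ∈ U)).card = Nat.card U := by
        rw [Nat.card_eq_fintype_card, Fintype.card_subtype]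
      rw [← hcU']
      refine Finset.card_le_card_of_injOn (fun x => x₁⁻¹ * x) (fun x hx => ?_) (fun x _ z _ h => ?_)
      · simp only [Finset.coe_filter, Finset.mem_univ, true_and, Set.mem_ofPred_eq] at hx ⊢
        obtain ⟨a, ha, haz⟩ := hU (x₁⁻¹ * x)
        have h6 : a⁻¹ * (x₁⁻¹ * y * x₁) * a ∈ U := by
          have h7 : a⁻¹ * (x₁⁻¹ * y * x₁) * a
              = (a⁻¹ * (x₁⁻¹ * x)) * (x⁻¹ * y * x) * (a⁻¹ * (x₁⁻¹ * x))⁻¹ := by group
          rw [h7]
          exact U.mul_mem (U.mul_mem haz hx) (U.inv_mem haz)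
        have h7 : a⁻¹ * (x₁⁻¹ * y * x₁) * a * (x₁⁻¹ * y * x₁)⁻¹ ∈ U := U.mul_mem h6 (U.inv_mem hx₁)
        have h8 : a⁻¹ * (x₁⁻¹ * y * x₁) * a * (x₁⁻¹ * y * x₁)⁻¹
            = a⁻¹ * ((x₁⁻¹ * y * x₁) * a * (x₁⁻¹ * y * x₁)⁻¹) := by group
        have h9 : (x₁⁻¹ * y * x₁) * a * (x₁⁻¹ * y * x₁)⁻¹ ∈ A :=
          (inferInstance : A.Normal).conj_mem a ha _
        rw [h8] at h7
        obtain ⟨h10, h11⟩ := (mem_ker' A χ).mp (hUA _ h7 (A.mul_mem (A.inv_mem ha) h9))
        have h12 : χ (cj A (x₁⁻¹ * y * x₁) ⟨a, ha⟩) = χ ⟨a, ha⟩ := by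
          have h13 : (⟨a⁻¹ * ((x₁⁻¹ * y * x₁) * a * (x₁⁻¹ * y * x₁)⁻¹), h10⟩ : A)
              = (⟨a, ha⟩ : A)⁻¹ * cj A (x₁⁻¹ * y * x₁) ⟨a, ha⟩ := rfl
          rw [h13, map_mul, map_inv] at h11
          exact (inv_mul_eq_one.mp h11).symm
        by_cases hχa : χ ⟨a, ha⟩ = 1
        · have h13 : a ∈ U := hCU ((mem_ker' A χ).mpr ⟨ha, hχa⟩)
          have h14 : x₁⁻¹ * x = a * (a⁻¹ * (x₁⁻¹ * x)) := by group
          rw [h14]
          exact U.mul_mem h13 haz
        · exfalso
          have h13 := h4 _ (conj_of_one hp A χ h1 h3 hχa h12)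
          apply hy
          have h14 := (inferInstance : A.Normal).conj_mem _ h13 x₁
          have h15 : x₁ * (x₁⁻¹ * y * x₁) * x₁⁻¹ = y := by group
          rwa [h15] at h14
      · exact mul_left_cancel h
    · rw [Finset.not_nonempty_iff_eq_empty] at hne
      change (Finset.univ.filter fun x : P => x⁻¹ * y * x ∈ U).card ≤ _
      rw [hne]
      simp
  have hswap : ∀ (X : Subgroup P) [X.Normal], ∑ y ∈ Finset.univ.filter (fun y => y ∈ X), N y
      = Nat.card P * Nat.card (X ⊓ U : Subgroup P) := by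
    intro X _
    have h6 : ∀ y, N y = ∑ x : P, if x⁻¹ * y * x ∈ U then 1 else 0 := fun y => Finset.card_filter _ _
    simp only [h6]
    rw [Finset.sum_comm, Nat.card_eq_fintype_card, ← Finset.card_univ, ← smul_eq_mul, ← Finset.sum_const]
    refine Finset.sum_congr rfl fun x _ => ?_
    rw [← Finset.card_filter, Finset.filter_filter]
    have h7 : Nat.card (X ⊓ U : Subgroup P) = (Finset.univ.filter fun y : P => y ∈ X ⊓ U).card := by
      rw [Nat.card_eq_fintype_card, Fintype.card_subtype]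
    rw [h7]
    refine Finset.card_bij (fun y _ => x⁻¹ * y * x) (fun y hy => ?_) (fun y _ z _ h => ?_)
      (fun z hz => ⟨x * z * x⁻¹, ?_, by group⟩)
    · rw [Finset.mem_filter] at hy ⊢
      refine ⟨Finset.mem_univ _, ?_, hy.2.2⟩
      have := (inferInstance : X.Normal).conj_mem y hy.2.1 x⁻¹
      rwa [inv_inv] at this
    · exact mul_left_cancel (mul_right_cancel h)
    · rw [Finset.mem_filter] at hz ⊢
      refine ⟨Finset.mem_univ _, (inferInstance : X.Normal).conj_mem z hz.2.1 x, ?_⟩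
      have h8 : x⁻¹ * (x * z * x⁻¹) * x = z := by group
      rw [h8]
      exact hz.2.2
  have hall : ∑ y : P, N y = Nat.card P * Nat.card U := by
    have h6 := hswap ⊤
    rw [top_inf_eq] at h6
    rw [← h6]
    refine Finset.sum_congr ?_ fun _ _ => rfl
    ext y
    simp
  have hA : ∑ y ∈ Finset.univ.filter (fun y => y ∈ A), N y = Nat.card P * Nat.card (ker' A χ) := by
    rw [hswap A]
    have h6 : A ⊓ U = ker' A χ := by
      ext x
      exact ⟨fun h => hUA x h.2 h.1, fun h => ⟨hC h, hCU h⟩⟩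
    rw [h6]
  have hsplit := Finset.sum_filter_add_sum_filter_not Finset.univ (fun y : P => y ∈ A) N
  have hsplit' := Finset.sum_filter_add_sum_filter_not Finset.univ (fun y : P => y ∈ A)
    (fun _ => Nat.card U)
  have hcA : ∑ y ∈ Finset.univ.filter (fun y => y ∈ A), Nat.card U = Nat.card A * Nat.card U := by
    rw [Finset.sum_const, smul_eq_mul]
    congr 1
    rw [Nat.card_eq_fintype_card, Fintype.card_subtype]
  have hcP : ∑ y : P, Nat.card U = Nat.card P * Nat.card U := by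
    rw [Finset.sum_const, smul_eq_mul, Finset.card_univ, ← Nat.card_eq_fintype_card (α := P)]
  have hNeq : ∀ y, y ∉ A → N y = Nat.card U := by
    have h6 : ∑ y ∈ Finset.univ.filter (fun y => ¬ y ∈ A), N y
        = ∑ y ∈ Finset.univ.filter (fun y => ¬ y ∈ A), Nat.card U := by
      rw [hall, hA] at hsplit
      rw [hcA, hcP] at hsplit'
      have h7 : Nat.card P * Nat.card (ker' A χ) = Nat.card A * Nat.card U := by
        rw [h5, hcU, hcardA]; ring
      rw [h7] at hsplit
      omega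
    have h7 := (Finset.sum_eq_sum_iff_of_le (s := Finset.univ.filter (fun y : P => ¬ y ∈ A))
      (f := N) (g := fun _ => Nat.card U) fun y hy => hNle y (Finset.mem_filter.mp hy).2).mp h6
    intro y hy
    exact h7 y (Finset.mem_filter.mpr ⟨Finset.mem_univ _, hy⟩)
  refine ⟨U, fun y => ?_⟩
  rw [ind_eq, ind_eq, hSU]
  by_cases hyA : y ∈ A
  · have hcjA : ∀ x : P, x⁻¹ * y * x ∈ A := by
      intro x
      have := (inferInstance : A.Normal).conj_mem y hyA x⁻¹
      rwa [inv_inv] at this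
    have hext : ∀ x : P, ext A (fun a => ((χ a : Kˣ) : K)) (x⁻¹ * y * x)
        = ((χ (cj A x⁻¹ ⟨y, hyA⟩) : Kˣ) : K) := by
      intro x
      rw [ext_mem _ _ (hcjA x)]
      congr 2
      apply Subtype.ext
      change x⁻¹ * y * x = x⁻¹ * y * x⁻¹⁻¹
      rw [inv_inv]
    simp only [hext]
    by_cases hy1 : χ ⟨y, hyA⟩ = 1
    · have h6 : ∀ x : P, χ (cj A x⁻¹ ⟨y, hyA⟩) = 1 := by
        intro x
        obtain ⟨t, ht⟩ := h3 x⁻¹
        rw [ht, hy1, one_pow]
      have h7 : N y = Nat.card P := by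
        rw [Nat.card_eq_fintype_card, ← Finset.card_univ]
        change (Finset.univ.filter fun x : P => x⁻¹ * y * x ∈ U).card = _
        rw [Finset.filter_true_of_mem]
        intro x _
        refine hCU ((mem_ker' A χ).mpr ⟨hcjA x, ?_⟩)
        rw [← h6 x]
        congr 1
        apply Subtype.ext
        change x⁻¹ * y * x = x⁻¹ * y * x⁻¹⁻¹
        rw [inv_inv]
      simp only [h6, Units.val_one, Finset.sum_const, Finset.card_univ]
      rw [h7, nsmul_eq_mul, mul_one, ← Nat.card_eq_fintype_card]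
      have h8 : (Nat.card P : K) = (p - 1 : K) * Nat.card A := by
        rw [h5, Nat.cast_mul, Nat.cast_sub hp.one_le, Nat.cast_one]
      have h9 : (Nat.card P : K) = (p : K) * Nat.card U := by
        rw [h5, hcU, hcardA]
        push_cast
        ring
      have e1 : (Nat.card A : K)⁻¹ * (Nat.card P : K) = p - 1 := by
        rw [h8, mul_comm (p - 1 : K), inv_mul_cancel_left₀ hAK]
      have e2 : (Nat.card U : K)⁻¹ * (Nat.card P : K) = p := by
        rw [h9, mul_comm (p : K), inv_mul_cancel_left₀ hUK]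
      rw [e1, e2]
    · rw [sum_conj hp A χ h1 h3 h4 h5 hy1]
      have h7 : N y = 0 := by
        rw [Finset.card_eq_zero, Finset.filter_eq_empty_iff]
        intro x _ hx
        obtain ⟨h8, h9⟩ := (mem_ker' A χ).mp (hUA _ hx (hcjA x))
        apply hy1
        obtain ⟨t, ht⟩ := h3 x
        have h10 := ht ⟨x⁻¹ * y * x, h8⟩
        rw [h9, one_pow] at h10
        rw [← h10]
        congr 1
        apply Subtype.ext
        change y = x * (x⁻¹ * y * x) * x⁻¹
        group
      rw [h7, Nat.cast_zero, mul_zero, zero_sub, mul_neg, inv_mul_cancel₀ hAK]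
  · have hext : ∀ x : P, ext A (fun a => ((χ a : Kˣ) : K)) (x⁻¹ * y * x) = 0 := by
      intro x
      refine ext_not _ _ fun h => hyA ?_
      have h6 := (inferInstance : A.Normal).conj_mem _ h x
      have h7 : x * (x⁻¹ * y * x) * x⁻¹ = y := by group
      rwa [h7] at h6
    simp only [hext, Finset.sum_const_zero, mul_zero]
    rw [hNeq y hyA, inv_mul_cancel₀ hUK, sub_self]

end hol

end Pool.Agent.U157.BB
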