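import Mathlib
import Pool.Agent.U157.BB.Core
import Pool.Agent.U157.BB.Hol

/-!
# The equivariant Beilinson conjecture for abelian extensions: the main results
-/

set_option autoImplicit false
set_option linter.unusedSectionVars false

open Filter Topology NumberField

namespace Pool.Agent.U157.BB

open Pool.Agent.R389 Pool.Agent.H302R2 Pool.Agent.H541R3.ART Pool.Agent.W446.AS

section grp

variable {K : Type*} [Field K] [CharZero K] {G : Type} [Group G] [Finite G]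

lemma ind_congr {H₁ H₂ : Subgroup G} {f₁ : H₁ → K} {f₂ : H₂ → K} (hH : H₁ = H₂)
    (hf : ∀ (x : G) (h₁ : x ∈ H₁) (h₂ : x ∈ H₂), f₁ ⟨x, h₁⟩ = f₂ ⟨x, h₂⟩) : ind H₁ f₁ = ind H₂ f₂ := by
  subst hH
  have : f₁ = f₂ := by
    funext x
    exact hf x x.2 x.2
  rw [this]

lemma ind_top (lam : G →* Kˣ) (g : G) :
    ind (⊤ : Subgroup G) (fun x => ((lam x : Kˣ) : K)) g = ((lam g : Kˣ) : K) := by
  classical
  have : Fintype G := Fintype.ofFinite G
  rw [ind_eq]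
  have h1 : ∀ x : G, ext (⊤ : Subgroup G) (fun x => ((lam x : Kˣ) : K)) (x⁻¹ * g * x) = ((lam g : Kˣ) : K) := by
    intro x
    rw [ext_mem _ _ (Subgroup.mem_top _)]
    change ((lam (x⁻¹ * g * x) : Kˣ) : K) = _
    rw [map_mul, map_mul, map_inv, mul_comm, mul_inv_cancel_left]
  simp only [h1, Finset.sum_const, Finset.card_univ]
  rw [nsmul_eq_mul, ← Nat.card_eq_fintype_card, Subgroup.card_top, inv_mul_cancel_left₀]
  exact Nat.cast_ne_zero.mpr Nat.card_pos.ne'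

/-- a character of prime order of a subgroup of `H` -/
theorem rel_prime {p : ℕ} (hp : p.Prime) (H W : Subgroup G) (hWH : W ≤ H)
    (hWn : ∀ h ∈ H, ∀ w ∈ W, h * w * h⁻¹ ∈ W) (χ : W →* Kˣ) (h1 : ∀ w, χ w ^ p = 1)
    (h2 : ∃ w, χ w ≠ 1)
    (h3 : ∀ h ∈ H, ∃ t : ℕ, ∀ w w' : W, (w' : G) = h * w * h⁻¹ → χ w' = χ w ^ t)
    (h4 : ∀ h ∈ H, (∀ w w' : W, (w' : G) = h * w * h⁻¹ → χ w' = χ w) → h ∈ W)
    (h5 : Nat.card H = (p - 1) * Nat.card W) :
    ∃ U : Subgroup G, ∀ g, ind W (fun w => ((χ w : Kˣ) : K)) g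
      = ind U (fun _ => (1 : K)) g - ind H (fun _ => (1 : K)) g := by
  let A : Subgroup H := W.subgroupOf H
  have hn : A.Normal := by
    refine ⟨fun a ha g => ?_⟩
    rw [Subgroup.mem_subgroupOf] at ha ⊢
    exact hWn g g.2 a ha
  let e : A ≃* W := Subgroup.subgroupOfEquivOfLe hWH
  let χ' : A →* Kˣ := χ.comp e.toMonoidHom
  have he : ∀ a : A, ((e a : W) : G) = ((a : H) : G) := fun a => rfl
  obtain ⟨U, hU⟩ := hol_id (K := K) hp A χ' (fun a => h1 _) (by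
      obtain ⟨w, hw⟩ := h2
      refine ⟨e.symm w, ?_⟩
      change χ (e (e.symm w)) ≠ 1
      rwa [MulEquiv.apply_symm_apply])
    (fun x => by
      obtain ⟨t, ht⟩ := h3 x x.2
      exact ⟨t, fun a => ht (e a) (e (cj A x a)) rfl⟩)
    (fun x hx => by
      rw [Subgroup.mem_subgroupOf]
      refine h4 x x.2 fun w w' hww' => ?_
      have h6 := hx (e.symm w)
      have h7 : e (cj A x (e.symm w)) = w' := by
        apply Subtype.ext
        rw [hww']
        rfl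
      have h8 : χ (e (cj A x (e.symm w))) = χ (e (e.symm w)) := h6
      rwa [h7, MulEquiv.apply_symm_apply] at h8)
    (by rw [h5, ← Nat.card_congr e.toEquiv])
  refine ⟨U.map H.subtype, fun g => ?_⟩
  have h6 : ind W (fun w => ((χ w : Kˣ) : K)) = ind H (ind A (fun a => ((χ' a : Kˣ) : K))) := by
    rw [ind_ind]
    refine ind_congr ?_ fun x hx₁ hx₂ => ?_
    · exact (Subgroup.map_subgroupOf_eq_of_le hWH).symm
    · have h7 := ext_tr H A (fun a => ((χ' a : Kˣ) : K)) ⟨x, hWH hx₁⟩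
      rw [ext_mem _ _ hx₂, ext_mem _ _ (show (⟨x, hWH hx₁⟩ : H) ∈ A from hx₁)] at h7
      rw [h7]
      rfl
  have h7 : ind A (fun a => ((χ' a : Kˣ) : K)) = ind U (fun _ => (1 : K)) - fun _ => (1 : K) := by
    funext y
    exact hU y
  rw [h6, h7, ind_sub, Pi.sub_apply, ind_ind]
  rfl

end grp

namespace Data

variable {F : Type} [Field F] [NumberField F] [IsGalois ℚ F] {D : Data F} {k : ℕ}

lemma holds_one {R : D.Regulator k} (hR : R.Borel) (U : Subgroup (F ≃ₐ[ℚ] F)) (E : Type) [Field E]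
    [CharZero E] : R.Holds (E := E) U 1 := by
  obtain ⟨q, hq, h⟩ := hR U
  obtain ⟨ℓ, a, h1, h2, h3⟩ := h (algebraMap ℚ ℂ)
  refine ⟨(q : E), Rat.cast_ne_zero.mpr hq, fun τ => ⟨ℓ, a, ?_, h2, ?_⟩⟩
  · have h4 : (fun w : U => τ ((((1 : U →* Eˣ) w)⁻¹ : Eˣ) : E))
        = fun w : U => algebraMap ℚ ℂ ((((1 : U →* ℚˣ) w)⁻¹ : ℚˣ) : ℚ) := by
      funext w
      simp
    rw [h4]
    exact h1
  · have h4 : (Units.map (τ : E →* ℂ)).comp (1 : U →* Eˣ)
        = (Units.map ((algebraMap ℚ ℂ : ℚ →+* ℂ) : ℚ →* ℂ)).comp (1 : U →* ℚˣ) := by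
      ext w
      simp
    rw [h4, h3, map_ratCast]
    rfl

/-- **Descent.** -/
theorem holds_descent {R : D.Regulator k} (hB : R.Borel) (hR : R.Beilinson) (E : Type) [Field E]
    [NumberField E] {J I : Type} [Fintype J] [Fintype I] (n : J → ℤ) (U : J → Subgroup (F ≃ₐ[ℚ] F))
    (m : I → ℤ) (lam : I → (F ≃ₐ[ℚ] F) →* Eˣ) (W : Subgroup (F ≃ₐ[ℚ] F)) (χ : W →* Eˣ)
    (hrel : ∀ g, ind W (fun w => ((χ w : Eˣ) : E)) g
      = ∑ j, (n j : E) * ind (U j) (fun _ => (1 : E)) g + ∑ i, (m i : E) * ((lam i g : Eˣ) : E)) :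
    R.Holds W χ := by
  classical
  refine holds_of_rel R (J := J ⊕ I) Finset.univ (Sum.elim n m) (Sum.elim U fun _ => ⊤)
    (fun j => match j with
      | .inl j => (1 : U j →* Eˣ)
      | .inr i => (lam i).comp (Subgroup.subtype ⊤)) (fun j _ => ?_) W χ fun g => ?_
  · rcases j with j | i
    · exact holds_one hB (U j) E
    · exact hR E _
  · rw [hrel g, Fintype.sum_sum_type]
    congr 1
    refine Finset.sum_congr rfl fun i _ => ?_
    change _ = (m i : E) * ind (⊤ : Subgroup (F ≃ₐ[ℚ] F)) (fun x => ((lam i x : Eˣ) : E)) g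
    rw [ind_top]

/-- **Extensions of prime exponent.** -/
theorem holds_prime {R : D.Regulator k} (hB : R.Borel) {p : ℕ} (hp : p.Prime)
    (H W N : Subgroup (F ≃ₐ[ℚ] F)) (hWH : W ≤ H)
    (hWn : ∀ h ∈ H, ∀ w ∈ W, h * w * h⁻¹ ∈ W)
    (hexp : ∀ w ∈ W, w ^ p ∈ N)
    (hscal : ∀ h ∈ H, ∃ t : ℕ, ∀ w ∈ W, h * w * h⁻¹ * (w ^ t)⁻¹ ∈ N)
    (hfaith : ∀ h ∈ H, (∀ w ∈ W, h * w * h⁻¹ * w⁻¹ ∈ N) → h ∈ W)
    (hcard : Nat.card H = (p - 1) * Nat.card W)
    (E : Type) [Field E] [NumberField E] (χ : W →* Eˣ) (hχ : ∀ w : W, (w : F ≃ₐ[ℚ] F) ∈ N → χ w = 1) :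
    R.Holds W χ := by
  classical
  by_cases h0 : ∃ w, χ w ≠ 1
  swap
  · push Not at h0
    have : χ = 1 := by
      ext w
      rw [h0 w]
      rfl
    rw [this]
    exact holds_one hB W E
  have h1 : ∀ w, χ w ^ p = 1 := by
    intro w
    rw [← map_pow]
    exact hχ _ (hexp w w.2)
  have h3 : ∀ h ∈ H, ∀ t : ℕ, (∀ w ∈ W, h * w * h⁻¹ * (w ^ t)⁻¹ ∈ N) →
      ∀ w w' : W, (w' : F ≃ₐ[ℚ] F) = h * w * h⁻¹ → χ w' = χ w ^ t := by
    intro h _ t ht w w' hww'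
    have h6 : χ (w' * (w ^ t)⁻¹) = 1 := by
      apply hχ
      rw [Subgroup.coe_mul, Subgroup.coe_inv, Subgroup.coe_pow, hww']
      exact ht w w.2
    rw [map_mul, map_inv, map_pow] at h6
    exact mul_inv_eq_one.mp h6
  obtain ⟨U, hU⟩ := rel_prime (K := E) hp H W hWH hWn χ h1 h0
    (fun h hh => by
      obtain ⟨t, ht⟩ := hscal h hh
      exact ⟨t, h3 h hh t ht⟩)
    (fun h hh hfix => by
      obtain ⟨t, ht⟩ := hscal h hh
      obtain ⟨w₀, hw₀⟩ := h0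
      have h6 : χ w₀ ^ t = χ w₀ := by
        have h7 := h3 h hh t ht w₀ ⟨h * w₀ * h⁻¹, hWn h hh w₀ w₀.2⟩ rfl
        rw [← h7]
        exact hfix w₀ ⟨h * w₀ * h⁻¹, hWn h hh w₀ w₀.2⟩ rfl
      have := Fact.mk hp
      have hord : orderOf (χ w₀) = p := orderOf_eq_prime (h1 w₀) hw₀
      have h7 : t ≡ 1 [MOD p] := by
        have h8 : χ w₀ ^ t = χ w₀ ^ 1 := by rw [h6, pow_one]
        rwa [pow_eq_pow_iff_modEq, hord] at h8
      refine hfaith h hh fun w hw => ?_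
      have h8 : w ^ t * w⁻¹ ∈ N := by
        have h9 : (p : ℤ) ∣ (t : ℤ) - 1 := by
          have h10 := Nat.modEq_iff_dvd.mp h7.symm
          rwa [Nat.cast_one] at h10
        obtain ⟨c, hc⟩ := h9
        have h10 : w ^ t * w⁻¹ = (w ^ p) ^ c := by
          rw [← zpow_natCast w t, ← zpow_neg_one, ← zpow_add, ← zpow_natCast w p, ← zpow_mul, ← hc]
          rfl
        rw [h10]
        exact N.zpow_mem (hexp w hw) c
      have h11 : h * w * h⁻¹ * w⁻¹ = h * w * h⁻¹ * (w ^ t)⁻¹ * (w ^ t * w⁻¹) := by group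
      rw [h11]
      exact N.mul_mem (ht w hw) h8) hcard
  refine holds_of_rel R (J := Bool) Finset.univ (fun b => cond b 1 (-1)) (fun b => cond b U H)
    (fun b => 1) (fun b _ => holds_one hB _ E) W χ fun g => ?_
  rw [hU g, Fintype.sum_bool]
  change _ = ((1 : ℤ) : E) * ind U (fun _ => (1 : E)) g + ((-1 : ℤ) : E) * ind H (fun _ => (1 : E)) g
  push_cast
  ring

end Data

end Pool.Agent.U157.BB
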