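import Mathlib
import Pool.Agent.U157.BB.Main

/-!
# Induced characters of generalised dihedral groups, of order 3, 4 and 6
-/

set_option autoImplicit false
set_option linter.unusedSectionVars false

open Filter Topology NumberField

namespace Pool.Agent.U157.BB

open Pool.Agent.R389 Pool.Agent.H302R2 Pool.Agent.H541R3.ART Pool.Agent.W446.AS

section grp

variable {K : Type*} [Field K] [CharZero K] {G : Type} [Group G] [Finite G]

lemma sum_conj_eq [Fintype G] (f : G → K) (g c : G) :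
    ∑ x : G, f (c⁻¹ * (x⁻¹ * g * x) * c) = ∑ x : G, f (x⁻¹ * g * x) := by
  rw [← Equiv.sum_comp (Equiv.mulRight c) (fun x => f (x⁻¹ * g * x))]
  refine Finset.sum_congr rfl fun x _ => ?_
  simp [mul_assoc]

lemma card_two {A B : Subgroup G} (hAB : A ≤ B) (h : G) (hB : h ∈ B)
    (hx : ∀ b ∈ B, (b * h ∈ A ↔ b ∉ A)) : Nat.card B = 2 * Nat.card A := by
  have h1 : (A.subgroupOf B).index = 2 := by
    rw [Subgroup.index_eq_two_iff]
    refine ⟨⟨h, hB⟩, fun b => ?_⟩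
    rw [Subgroup.mem_subgroupOf, Subgroup.mem_subgroupOf]
    have := hx b b.2
    change Xor' ((b : G) * h ∈ A) ((b : G) ∈ A)
    unfold Xor'
    tauto
  have h2 := (A.subgroupOf B).card_mul_index
  rw [h1, Nat.card_congr (Subgroup.subgroupOfEquivOfLe hAB).toEquiv] at h2
  omega

/-- the data: `W` of index two in `H`, `x ^ 2` in the kernel of `χ` for the `x` outside of `W` -/
structure Dh (H W : Subgroup G) (χ : W →* Kˣ) (h : G) : Prop where
  le : W ≤ H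
  mem : h ∈ H
  nmem : h ∉ W
  two : ∀ x ∈ H, ∀ y ∈ H, x ∉ W → y ∉ W → x * y ∈ W
  sq : ∀ x ∈ H, x ∉ W → ∀ y : W, (y : G) = x * x → χ y = 1

variable {H W : Subgroup G} {χ : W →* Kˣ} {h : G}

namespace Dh

variable (D : Dh H W χ h)
include D

lemma norm {x w : G} (hx : x ∈ H) (hw : w ∈ W) : x * w * x⁻¹ ∈ W := by
  by_cases hxW : x ∈ W
  · exact W.mul_mem (W.mul_mem hxW hw) (W.inv_mem hxW)
  · refine D.two _ (H.mul_mem hx (D.le hw)) _ (H.inv_mem hx) ?_ ?_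
    · intro h1
      exact hxW (by simpa using W.mul_mem h1 (W.inv_mem hw))
    · intro h1
      exact hxW (by simpa using W.inv_mem h1)

lemma conj {x : G} (hx : x ∈ H) (hxW : x ∉ W) (w w' : W) (hw : (w' : G) = x * w * x⁻¹) :
    χ w' = (χ w)⁻¹ := by
  have h1 : x * w ∉ W := fun h1 => hxW (by simpa using W.mul_mem h1 (W.inv_mem w.2))
  have h2 : x * x ∈ W := D.two x hx x hx hxW hxW
  have h3 := D.sq x hx hxW ⟨x * x, h2⟩ rfl
  have h4 : (x * w) * (x * w) ∈ W := D.two _ (H.mul_mem hx (D.le w.2)) _ (H.mul_mem hx (D.le w.2)) h1 h1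
  have h5 := D.sq (x * w) (H.mul_mem hx (D.le w.2)) h1 ⟨_, h4⟩ rfl
  have h6 : (⟨_, h4⟩ : W) = w' * ⟨x * x, h2⟩ * w := by
    apply Subtype.ext
    change (x * w) * (x * w) = w' * (x * x) * w
    rw [hw]
    group
  rw [h6, map_mul, map_mul, h3, mul_one] at h5
  exact eq_inv_of_mul_eq_one_left h5

end Dh

open Classical in
/-- the extension of `χ` to `H` -/
noncomputable def th (χ : W →* Kˣ) (h : G) (x : G) : Kˣ :=
  if hx : x ∈ W then χ ⟨x, hx⟩ else if hx : h⁻¹ * x ∈ W then χ ⟨h⁻¹ * x, hx⟩ else 1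

namespace Dh

variable (D : Dh H W χ h)
include D

omit D in
lemma th_W {x : G} (hx : x ∈ W) : th χ h x = χ ⟨x, hx⟩ := by
  rw [th, dif_pos hx]

lemma th_c {x : G} (hx : x ∈ H) (hxW : x ∉ W) : ∃ v : W, x = h * v ∧ th χ h x = χ v := by
  have h1 : h⁻¹ * x ∈ W := by
    refine D.two _ (H.inv_mem D.mem) _ hx ?_ hxW
    intro h1
    exact D.nmem (by simpa using W.inv_mem h1)
  refine ⟨⟨h⁻¹ * x, h1⟩, by simp, ?_⟩
  rw [th, dif_neg hxW, dif_pos h1]

lemma hv {v : W} : h * (v : G) ∉ W := fun h1 => D.nmem (by simpa using W.mul_mem h1 (W.inv_mem v.2))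

lemma th_hv (v : W) : th χ h (h * v) = χ v := by
  obtain ⟨u, h1, h2⟩ := D.th_c (H.mul_mem D.mem (D.le v.2)) D.hv
  rw [h2]
  congr 1
  exact Subtype.ext (mul_left_cancel h1).symm

lemma th_h : th χ h h = 1 := by
  have := D.th_hv 1
  rwa [OneMemClass.coe_one, mul_one, map_one] at this

lemma mul1 {x y : G} (hx : x ∈ H) (hy : y ∈ W) : th χ h (x * y) = th χ h x * th χ h y := by
  by_cases hxW : x ∈ W
  · rw [th_W hxW, th_W hy, th_W (W.mul_mem hxW hy), ← map_mul]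
    rfl
  · obtain ⟨v, rfl, h2⟩ := D.th_c hx hxW
    rw [h2, th_W hy, mul_assoc]
    exact (D.th_hv (v * ⟨y, hy⟩)).trans (map_mul _ _ _)

lemma mul2 {x y : G} (hx : x ∈ H) (hy : y ∈ H) (hyW : y ∉ W) :
    th χ h (x * y) = (th χ h x)⁻¹ * th χ h y := by
  obtain ⟨u, rfl, h2⟩ := D.th_c hy hyW
  rw [h2]
  have hi : h⁻¹ ∉ W := fun h1 => D.nmem (by simpa using W.inv_mem h1)
  have hn : ∀ v : W, h⁻¹ * v * h ∈ W := fun v => by
    simpa using D.norm (H.inv_mem D.mem) v.2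
  by_cases hxW : x ∈ W
  · have h3 := D.conj (H.inv_mem D.mem) hi ⟨x, hxW⟩ ⟨h⁻¹ * x * h, hn ⟨x, hxW⟩⟩ (by simp)
    have h4 : x * (h * u) = h * ((⟨h⁻¹ * x * h, hn ⟨x, hxW⟩⟩ * u : W) : G) := by
      change _ = h * (h⁻¹ * x * h * u)
      group
    rw [h4, D.th_hv, map_mul, h3, th_W hxW]
  · obtain ⟨v, rfl, h5⟩ := D.th_c hx hxW
    rw [h5]
    have h2' : h * h ∈ W := D.two h D.mem h D.mem D.nmem D.nmem
    have h6 := D.sq h D.mem D.nmem ⟨h * h, h2'⟩ rfl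
    have h7 := D.conj D.mem D.nmem v ⟨h * v * h⁻¹, D.norm D.mem v.2⟩ rfl
    have h8 : h * (v : G) * (h * u)
        = ((⟨h * v * h⁻¹, D.norm D.mem v.2⟩ * ⟨h * h, h2'⟩ * u : W) : G) := by
      change _ = h * v * h⁻¹ * (h * h) * u
      group
    rw [h8, th_W (Subtype.mem _)]
    change χ (⟨h * v * h⁻¹, D.norm D.mem v.2⟩ * ⟨h * h, h2'⟩ * u) = _
    rw [map_mul, map_mul, h6, h7, mul_one]

lemma th_inv {x : G} (hx : x ∈ W) : th χ h x⁻¹ = (th χ h x)⁻¹ := by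
  rw [th_W hx, th_W (W.inv_mem hx), ← map_inv]
  rfl

lemma th_one : th χ h 1 = 1 := by
  rw [th_W W.one_mem]
  exact map_one χ

omit D in
lemma inv_self {u : Kˣ} (hu : u ^ 2 = 1) : u⁻¹ = u :=
  inv_eq_of_mul_eq_one_left (by rwa [← pow_two])

/-- the subgroup of the elements with `χ ^ 2 = 1` -/
def U : Subgroup G where
  carrier := {x | x ∈ H ∧ th χ h x ^ 2 = 1}
  mul_mem' := by
    rintro x y ⟨hx, hx'⟩ ⟨hy, hy'⟩
    refine ⟨H.mul_mem hx hy, ?_⟩
    by_cases hyW : y ∈ W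
    · rw [D.mul1 hx hyW, mul_pow, hx', hy', one_mul]
    · rw [D.mul2 hx hy hyW, mul_pow, inv_pow, hx', hy', inv_one, one_mul]
  one_mem' := by
    refine ⟨H.one_mem, ?_⟩
    rw [D.th_one, one_pow]
  inv_mem' := by
    rintro x ⟨hx, hx'⟩
    refine ⟨H.inv_mem hx, ?_⟩
    by_cases hxW : x ∈ W
    · rw [D.th_inv hxW, inv_pow, hx', inv_one]
    · have h1 := D.mul2 (H.inv_mem hx) hx hxW
      rw [inv_mul_cancel, D.th_one] at h1
      have h2 : th χ h x⁻¹ = th χ h x := by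
        have := congrArg (fun t => th χ h x⁻¹ * t) h1
        simpa using this
      rw [h2, hx']

lemma mem_U {x : G} : x ∈ D.U ↔ x ∈ H ∧ th χ h x ^ 2 = 1 := Iff.rfl

/-- the quadratic character of `U` -/
noncomputable def lam : D.U →* Kˣ where
  toFun u := th χ h u
  map_one' := D.th_one
  map_mul' x y := by
    change th χ h ((x : G) * y) = _
    by_cases hyW : (y : G) ∈ W
    · exact D.mul1 x.2.1 hyW
    · rw [D.mul2 x.2.1 y.2.1 hyW, inv_self x.2.2]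

lemma th6 (h6 : ∀ w, χ w ^ 6 = 1) {x : G} (hx : x ∈ H) : th χ h x ^ 6 = 1 := by
  by_cases hxW : x ∈ W
  · rw [th_W hxW, h6]
  · obtain ⟨v, -, h2⟩ := D.th_c hx hxW
    rw [h2, h6]

/-- the quadratic character of `H` -/
noncomputable def mu (h6 : ∀ w, χ w ^ 6 = 1) : H →* Kˣ where
  toFun x := th χ h x ^ 3
  map_one' := by
    change th χ h 1 ^ 3 = 1
    rw [D.th_one, one_pow]
  map_mul' x y := by
    change th χ h ((x : G) * y) ^ 3 = _
    by_cases hyW : (y : G) ∈ W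
    · rw [D.mul1 x.2 hyW, mul_pow]
    · rw [D.mul2 x.2 y.2 hyW, mul_pow, inv_pow, inv_self]
      rw [← pow_mul]
      exact D.th6 h6 x.2

omit D in
lemma EW {z : G} (hz : z ∈ W) : ext W (fun w => ((χ w : Kˣ) : K)) z = ((th χ h z : Kˣ) : K) := by
  rw [ext_mem _ _ hz, th_W hz]

lemma EU {z : G} (hz : z ∈ H) (hz' : th χ h z ^ 2 = 1) :
    ext D.U (fun w => ((D.lam w : Kˣ) : K)) z = ((th χ h z : Kˣ) : K) := by
  rw [ext_mem _ _ (D.mem_U.2 ⟨hz, hz'⟩)]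
  rfl

lemma EU' {z : G} (hz' : th χ h z ^ 2 ≠ 1) :
    ext D.U (fun w => ((D.lam w : Kˣ) : K)) z = 0 :=
  ext_not _ _ fun h1 => hz' h1.2

lemma cW {z : G} (hz : z ∈ W) : h⁻¹ * z * h ∈ W ∧ th χ h (h⁻¹ * z * h) = (th χ h z)⁻¹ := by
  have h0 : h⁻¹ * z * h ∈ W := by simpa using D.norm (H.inv_mem D.mem) hz
  have hi : h⁻¹ ∉ W := fun h1 => D.nmem (by simpa using W.inv_mem h1)
  refine ⟨h0, ?_⟩
  rw [th_W h0, th_W hz]
  exact D.conj (H.inv_mem D.mem) hi ⟨z, hz⟩ ⟨_, h0⟩ (by simp)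

lemma cW' {z : G} (hz : z ∉ W) : h⁻¹ * z * h ∉ W := fun h1 => hz (by
  have := D.norm D.mem h1
  have h2 : h * (h⁻¹ * z * h) * h⁻¹ = z := by group
  rwa [h2] at this)

lemma cH {z b : G} (hb : b ∈ H) : b⁻¹ * z * b ∈ H ↔ z ∈ H := by
  constructor
  · intro h1
    have h2 : b * (b⁻¹ * z * b) * b⁻¹ = z := by group
    rw [← h2]
    exact H.mul_mem (H.mul_mem hb h1) (H.inv_mem hb)
  · intro h1
    exact H.mul_mem (H.mul_mem (H.inv_mem hb) h1) hb

lemma tW {z b : G} (hb : b ∈ W) (hz : z ∈ W) : th χ h (b⁻¹ * z * b) = th χ h z := by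
  rw [D.mul1 (H.mul_mem (H.inv_mem (D.le hb)) (D.le hz)) hb, D.mul1 (H.inv_mem (D.le hb)) hz, D.th_inv hb]
  rw [mul_comm, ← mul_assoc, mul_inv_cancel, one_mul]

lemma tH {z b : G} (hb : b ∈ W) (hz : z ∈ H) (hzW : z ∉ W) :
    th χ h (b⁻¹ * z * b) = th χ h b ^ 2 * th χ h z := by
  rw [D.mul1 (H.mul_mem (H.inv_mem (D.le hb)) hz) hb, D.mul2 (H.inv_mem (D.le hb)) hz hzW, D.th_inv hb,
    inv_inv, pow_two]
  exact mul_right_comm _ _ _

omit [CharZero K] D in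
lemma neg_one_of {u : Kˣ} (h4 : u ^ 4 = 1) (h2 : u ^ 2 ≠ 1) : (u : K) ^ 2 = -1 := by
  have h5 : ((u : K) ^ 2 - 1) * ((u : K) ^ 2 + 1) = 0 := by
    have : (u : K) ^ 4 = 1 := by
      have := congrArg (Units.val) h4
      simpa using this
    linear_combination this
  rcases mul_eq_zero.1 h5 with h6 | h6
  · exact absurd (Units.ext (by simpa using sub_eq_zero.1 h6)) h2
  · linear_combination h6

/-- the local identity for the order four -/
lemma id4 (h4 : ∀ w, χ w ^ 4 = 1) (c : W) (hc : χ c ^ 2 ≠ 1) (z : G) :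
    ext W (fun w => ((χ w : Kˣ) : K)) z + ext W (fun w => ((χ w : Kˣ) : K)) (h⁻¹ * z * h)
      = ext D.U (fun w => ((D.lam w : Kˣ) : K)) z
        + ext D.U (fun w => ((D.lam w : Kˣ) : K)) ((c : G)⁻¹ * z * c) := by
  have hcc : (th χ h (c : G)) = χ c := by rw [th_W c.2]
  by_cases hzH : z ∈ H
  swap
  · have h1 : z ∉ W := fun h1 => hzH (D.le h1)
    rw [ext_not _ _ h1, ext_not _ _ (D.cW' h1), ext_not D.U _ (fun h1 => hzH h1.1),
      ext_not D.U _ (fun h1 => hzH ((D.cH (D.le c.2)).1 h1.1))]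
  by_cases hz : z ∈ W
  · obtain ⟨h1, h2⟩ := D.cW hz
    rw [EW (h := h) hz, EW (h := h) h1, h2]
    by_cases h3 : th χ h z ^ 2 = 1
    · rw [D.EU hzH h3, D.EU ((D.cH (D.le c.2)).2 hzH) (by rw [D.tW c.2 hz, h3]), D.tW c.2 hz, inv_self h3]
    · rw [D.EU' h3, D.EU' (by rwa [D.tW c.2 hz])]
      have h5 := neg_one_of (K := K) (u := th χ h z) (by rw [th_W hz, h4]) h3
      have h6 : ((th χ h z : Kˣ) : K) ≠ 0 := Units.ne_zero _
      rw [Units.val_inv_eq_inv_val, add_zero]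
      field_simp
      linear_combination h5
  · rw [ext_not _ _ hz, ext_not _ _ (D.cW' hz)]
    have h5 := neg_one_of (K := K) (u := χ c) (h4 c) hc
    have h7 := D.tH c.2 hzH hz
    have h8 : th χ h ((c : G)⁻¹ * z * c) ^ 2 = th χ h z ^ 2 := by
      rw [h7, mul_pow, ← pow_mul, hcc, h4, one_mul]
    by_cases h3 : th χ h z ^ 2 = 1
    · rw [D.EU hzH h3, D.EU ((D.cH (D.le c.2)).2 hzH) (by rw [h8, h3]), h7, hcc]
      push_cast
      rw [h5]
      ring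
    · rw [D.EU' h3, D.EU' (by rwa [h8])]

/-- the local identity for the order three or six -/
lemma id6 (h6 : ∀ w, χ w ^ 6 = 1) (b : W) (hb : χ b ^ 2 ≠ 1) (z : G) :
    ext W (fun w => ((χ w : Kˣ) : K)) z + ext W (fun w => ((χ w : Kˣ) : K)) (h⁻¹ * z * h)
      = ext D.U (fun w => ((D.lam w : Kˣ) : K)) z
        + ext D.U (fun w => ((D.lam w : Kˣ) : K)) ((b : G)⁻¹ * z * b)
        + ext D.U (fun w => ((D.lam w : Kˣ) : K)) (((b⁻¹ : W) : G)⁻¹ * z * ((b⁻¹ : W) : G))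
        - ext H (fun w => ((D.mu h6 w : Kˣ) : K)) z := by
  have hbb : (th χ h (b : G)) = χ b := by rw [th_W b.2]
  have hbi : (th χ h ((b⁻¹ : W) : G)) = (χ b)⁻¹ := by rw [th_W (b⁻¹).2, ← map_inv]
  by_cases hzH : z ∈ H
  swap
  · have h1 : z ∉ W := fun h1 => hzH (D.le h1)
    rw [ext_not _ _ h1, ext_not _ _ (D.cW' h1), ext_not D.U _ (fun h1 => hzH h1.1),
      ext_not D.U _ (fun h1 => hzH ((D.cH (D.le b.2)).1 h1.1)),
      ext_not D.U _ (fun h1 => hzH ((D.cH (D.le (b⁻¹).2)).1 h1.1)), ext_not H _ hzH]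
    ring
  have hH : ext H (fun w => ((D.mu h6 w : Kˣ) : K)) z = ((th χ h z : Kˣ) : K) ^ 3 := by
    rw [ext_mem _ _ hzH]
    change (((th χ h z) ^ 3 : Kˣ) : K) = _
    push_cast
    rfl
  have ht : ((th χ h z : Kˣ) : K) ^ 6 = 1 := by
    have := congrArg (Units.val) (D.th6 h6 hzH)
    simpa using this
  rw [hH]
  by_cases hz : z ∈ W
  · obtain ⟨h1, h2⟩ := D.cW hz
    rw [EW (h := h) hz, EW (h := h) h1, h2]
    by_cases h3 : th χ h z ^ 2 = 1
    · rw [D.EU hzH h3, D.EU ((D.cH (D.le b.2)).2 hzH) (by rw [D.tW b.2 hz, h3]), D.tW b.2 hz,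
        D.EU ((D.cH (D.le (b⁻¹).2)).2 hzH) (by rw [D.tW (b⁻¹).2 hz, h3]), D.tW (b⁻¹).2 hz, inv_self h3]
      have h7 : ((th χ h z : Kˣ) : K) ^ 2 = 1 := by
        have := congrArg (Units.val) h3
        simpa using this
      linear_combination ((th χ h z : Kˣ) : K) * h7
    · rw [D.EU' h3, D.EU' (by rwa [D.tW b.2 hz]), D.EU' (by rwa [D.tW (b⁻¹).2 hz])]
      have h5 : ((th χ h z : Kˣ) : K) ^ 2 ≠ 1 := fun h5 => h3 (Units.ext (by simpa using h5))
      have h7 : (((th χ h z : Kˣ) : K) ^ 2 - 1) * (((th χ h z : Kˣ) : K) ^ 4 + ((th χ h z : Kˣ) : K) ^ 2 + 1) = 0 := by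
        linear_combination ht
      have h8 := (mul_eq_zero.1 h7).resolve_left (sub_ne_zero.2 h5)
      have h9 : ((th χ h z : Kˣ) : K) ≠ 0 := Units.ne_zero _
      rw [Units.val_inv_eq_inv_val]
      field_simp
      linear_combination h8
  · rw [ext_not _ _ hz, ext_not _ _ (D.cW' hz)]
    have h7 := D.tH b.2 hzH hz
    have h7' := D.tH (b⁻¹).2 hzH hz
    rw [hbb] at h7
    rw [hbi] at h7'
    have hb6 := h6 b
    have ht6 := D.th6 h6 hzH
    have hbH := (D.cH (D.le b.2)).2 hzH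
    have hbH' := (D.cH (D.le (b⁻¹).2)).2 hzH
    have hc1 : th χ h ((b : G)⁻¹ * z * b) ^ 2 = χ b ^ 4 * th χ h z ^ 2 := by
      rw [h7, mul_pow, ← pow_mul]
    have hc2 : th χ h (((b⁻¹ : W) : G)⁻¹ * z * ((b⁻¹ : W) : G)) ^ 2 = χ b ^ 2 * th χ h z ^ 2 := by
      rw [h7', mul_pow, ← pow_mul, inv_pow]
      congr 1
      rw [inv_eq_iff_mul_eq_one, ← pow_add, hb6]
    have hB6 : ((χ b : Kˣ) : K) ^ 6 = 1 := by simpa using congrArg (Units.val) hb6
    have hB2 : ((χ b : Kˣ) : K) ^ 2 ≠ 1 := fun h5 => hb (Units.ext (by simpa using h5))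
    have hb4 : χ b ^ 4 ≠ 1 := by
      intro h5
      apply hb
      have : χ b ^ 6 = χ b ^ 4 * χ b ^ 2 := by rw [← pow_add]
      rw [hb6, h5, one_mul] at this
      exact this.symm
    have hw : ((χ b : Kˣ) : K) ^ 4 + ((χ b : Kˣ) : K) ^ 2 + 1 = 0 := by
      have : (((χ b : Kˣ) : K) ^ 2 - 1) * (((χ b : Kˣ) : K) ^ 4 + ((χ b : Kˣ) : K) ^ 2 + 1) = 0 := by
        linear_combination hB6
      exact (mul_eq_zero.1 this).resolve_left (sub_ne_zero.2 hB2)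
    have hcase : (((th χ h z : Kˣ) : K) ^ 2 - 1) * ((((th χ h z : Kˣ) : K) ^ 2 - ((χ b : Kˣ) : K) ^ 2)
        * (((th χ h z : Kˣ) : K) ^ 2 - ((χ b : Kˣ) : K) ^ 4)) = 0 := by
      linear_combination ht + (-((th χ h z : Kˣ) : K) ^ 4 + ((th χ h z : Kˣ) : K) ^ 2) * hw
        + (((th χ h z : Kˣ) : K) ^ 2 - 1) * hB6
    rcases mul_eq_zero.1 hcase with e | e
    · have eu : th χ h z ^ 2 = 1 := Units.ext (by simpa using sub_eq_zero.1 e)
      rw [D.EU hzH eu, D.EU' (by rw [hc1, eu, mul_one]; exact hb4), D.EU' (by rw [hc2, eu, mul_one]; exact hb)]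
      linear_combination ((th χ h z : Kˣ) : K) * e
    rcases mul_eq_zero.1 e with e | e
    · have eu : th χ h z ^ 2 = χ b ^ 2 := Units.ext (by simpa using sub_eq_zero.1 e)
      rw [D.EU' (by rw [eu]; exact hb), D.EU hbH (by rw [hc1, eu, ← pow_add, hb6]),
        D.EU' (by rw [hc2, eu, ← pow_add]; exact hb4), h7]
      push_cast
      linear_combination ((th χ h z : Kˣ) : K) * e
    · have eu : th χ h z ^ 2 = χ b ^ 4 := Units.ext (by simpa using sub_eq_zero.1 e)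
      have h8 : ((χ b)⁻¹ : Kˣ) ^ 2 = χ b ^ 4 := by
        rw [inv_pow, inv_eq_iff_mul_eq_one, ← pow_add, hb6]
      have h9 : χ b ^ 4 * χ b ^ 4 ≠ 1 := by
        have : χ b ^ 4 * χ b ^ 4 = χ b ^ 6 * χ b ^ 2 := by rw [← pow_add, ← pow_add]
        rw [this, hb6, one_mul]
        exact hb
      rw [D.EU' (by rw [eu]; exact hb4), D.EU' (by rw [hc1, eu]; exact h9),
        D.EU hbH' (by rw [hc2, eu, ← pow_add, hb6]), h7', h8]
      push_cast
      linear_combination ((th χ h z : Kˣ) : K) * e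

lemma card_H : Nat.card H = 2 * Nat.card W := by
  refine card_two D.le h D.mem fun b hb => ⟨fun h1 h2 => ?_, fun h1 => D.two b hb h D.mem h1 D.nmem⟩
  exact D.nmem (by simpa using W.mul_mem (W.inv_mem h2) h1)

lemma h_mem_U : h ∈ D.U := ⟨D.mem, by rw [D.th_h, one_pow]⟩

lemma card_U : Nat.card D.U = 2 * Nat.card (D.U ⊓ W : Subgroup G) := by
  refine card_two inf_le_left h D.h_mem_U fun b hb => ⟨fun h1 h2 => ?_, fun h1 => ?_⟩
  · exact D.nmem (by simpa using W.mul_mem (W.inv_mem h2.2) h1.2)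
  · exact ⟨D.U.mul_mem hb D.h_mem_U, D.two b hb.1 h D.mem (fun h2 => h1 ⟨hb, h2⟩) D.nmem⟩

lemma card_W {p : ℕ} (hp : p.Prime) (h1 : ∀ w, (χ w ^ 2) ^ p = 1) (h2 : ∃ w, χ w ^ 2 ≠ 1) :
    Nat.card W = p * Nat.card (D.U ⊓ W : Subgroup G) := by
  let χ' : (⊤ : Subgroup W) →* Kˣ := ((powMonoidHom 2).comp χ).comp (⊤ : Subgroup W).subtype
  have h3 := card_A hp (⊤ : Subgroup W) χ' (fun a => h1 _) (by
    obtain ⟨w, hw⟩ := h2
    exact ⟨⟨w, Subgroup.mem_top _⟩, hw⟩)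
  rw [Subgroup.card_top] at h3
  have h4 : (ker' (⊤ : Subgroup W) χ').map W.subtype = D.U ⊓ W := by
    ext x
    constructor
    · rintro ⟨w, hw, rfl⟩
      obtain ⟨h5, h6⟩ := (mem_ker' _ _).1 hw
      refine ⟨⟨D.le w.2, ?_⟩, w.2⟩
      rw [th_W (show W.subtype w ∈ W from w.2)]
      exact h6
    · rintro ⟨h5, h6⟩
      refine ⟨⟨x, h6⟩, (mem_ker' _ _).2 ⟨Subgroup.mem_top _, ?_⟩, rfl⟩
      have h7 := h5.2
      rw [th_W h6] at h7
      exact h7
  rw [h3, ← h4]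
  congr 1
  exact Nat.card_congr ((ker' (⊤ : Subgroup W) χ').equivMapOfInjective W.subtype W.subtype_injective).toEquiv

theorem rel4 (h4 : ∀ w, χ w ^ 4 = 1) (hne : ∃ c, χ c ^ 2 ≠ 1) (g : G) :
    ind W (fun w => ((χ w : Kˣ) : K)) g = ind D.U (fun w => ((D.lam w : Kˣ) : K)) g := by
  classical
  have : Fintype G := Fintype.ofFinite G
  have hcard := D.card_W Nat.prime_two (fun w => by rw [← pow_mul, h4]) hne
  have hcU := D.card_U
  obtain ⟨c, hc⟩ := hne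
  rw [ind_eq, ind_eq, hcard, hcU]
  congr 1
  have e := Finset.sum_congr rfl (fun x (_ : x ∈ Finset.univ) => D.id4 h4 c hc (x⁻¹ * g * x))
  rw [Finset.sum_add_distrib, Finset.sum_add_distrib, sum_conj_eq, sum_conj_eq] at e
  linear_combination e / 2

theorem rel6 (h6 : ∀ w, χ w ^ 6 = 1) (hne : ∃ c, χ c ^ 2 ≠ 1) (g : G) :
    ind W (fun w => ((χ w : Kˣ) : K)) g = ind D.U (fun w => ((D.lam w : Kˣ) : K)) g
      - ind H (fun w => ((D.mu h6 w : Kˣ) : K)) g := by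
  classical
  have : Fintype G := Fintype.ofFinite G
  have hcard := D.card_W Nat.prime_three (fun w => by rw [← pow_mul, h6]) hne
  have hcU := D.card_U
  have hcH := D.card_H
  obtain ⟨c, hc⟩ := hne
  rw [ind_eq, ind_eq, ind_eq, hcH, hcard, hcU]
  have e := Finset.sum_congr rfl (fun x (_ : x ∈ Finset.univ) => D.id6 h6 c hc (x⁻¹ * g * x))
  rw [Finset.sum_add_distrib, Finset.sum_sub_distrib, Finset.sum_add_distrib, Finset.sum_add_distrib,
    sum_conj_eq, sum_conj_eq, sum_conj_eq] at e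
  push_cast
  rw [mul_inv, mul_inv, mul_inv, mul_inv]
  linear_combination ((Nat.card (D.U ⊓ W : Subgroup G) : K)⁻¹ / 6) * e

end Dh

end grp

namespace Data

variable {F : Type} [Field F] [NumberField F] [IsGalois ℚ F] {D : Data F} {k : ℕ}

theorem holds_quadratic {R : D.Regulator k} (hB : R.Borel) (E : Type) [Field E] [NumberField E]
    (U : Subgroup (F ≃ₐ[ℚ] F)) (ψ : U →* Eˣ) (h2 : ∀ u, ψ u ^ 2 = 1) : R.Holds U ψ := by
  have hmem : ∀ (x : F ≃ₐ[ℚ] F) (hx : x ∈ U), ψ ⟨x, hx⟩ = 1 → x ∈ ψ.ker.map U.subtype :=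
    fun x hx h => ⟨⟨x, hx⟩, h, rfl⟩
  refine holds_prime hB Nat.prime_two U U (ψ.ker.map U.subtype) le_rfl
    (fun h hh w hw => U.mul_mem (U.mul_mem hh hw) (U.inv_mem hh))
    (fun w hw => hmem _ (U.pow_mem hw 2) ?_) (fun h hh => ⟨1, fun w hw => hmem _
      (U.mul_mem (U.mul_mem (U.mul_mem hh hw) (U.inv_mem hh)) (U.inv_mem (U.pow_mem hw 1))) ?_⟩)
    (fun h hh _ => hh) (by simp) E ψ ?_
  · exact (map_pow ψ ⟨w, hw⟩ 2).trans (h2 _)
  · have : (⟨h * w * h⁻¹ * (w ^ 1)⁻¹, U.mul_mem (U.mul_mem (U.mul_mem hh hw) (U.inv_mem hh))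
        (U.inv_mem (U.pow_mem hw 1))⟩ : U) = ⟨h, hh⟩ * ⟨w, hw⟩ * ⟨h, hh⟩⁻¹ * (⟨w, hw⟩ ^ 1)⁻¹ := rfl
    rw [this, map_mul, map_mul, map_mul, map_inv, map_inv, pow_one, mul_comm (ψ ⟨h, hh⟩),
      mul_inv_cancel_right, mul_inv_cancel]
  · rintro w ⟨v, hv, hvw⟩
    have : v = w := Subtype.ext hvw
    rw [← this]
    exact hv

theorem holds_dih {R : D.Regulator k} (hB : R.Borel) (E : Type) [Field E] [NumberField E]
    {H W : Subgroup (F ≃ₐ[ℚ] F)} {χ : W →* Eˣ} {h : F ≃ₐ[ℚ] F} (Δ : Dh H W χ h)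
    (hχ : (∀ w, χ w ^ 4 = 1) ∨ (∀ w, χ w ^ 6 = 1)) : R.Holds W χ := by
  classical
  by_cases h2 : ∀ w, χ w ^ 2 = 1
  · exact holds_quadratic hB E W χ h2
  push Not at h2
  have hlam : ∀ u : Δ.U, Δ.lam u ^ 2 = 1 := fun u => u.2.2
  rcases hχ with h4 | h6
  · refine holds_of_rel R (J := Unit) Finset.univ (fun _ => 1) (fun _ => Δ.U) (fun _ => Δ.lam)
      (fun _ _ => holds_quadratic hB E Δ.U Δ.lam hlam) W χ fun g => ?_
    rw [Δ.rel4 h4 h2 g]
    simp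
  · refine holds_of_rel R (J := Bool) Finset.univ (fun j => if j then 1 else -1)
      (fun j => if j then Δ.U else H)
      (fun j => match j with
        | true => Δ.lam
        | false => Δ.mu h6) (fun j _ => ?_) W χ fun g => ?_
    · rcases j with _ | _
      · refine holds_quadratic hB E H (Δ.mu h6) fun u => ?_
        change (th χ h (u : F ≃ₐ[ℚ] F) ^ 3) ^ 2 = 1
        rw [← pow_mul]
        exact Δ.th6 h6 u.2
      · exact holds_quadratic hB E Δ.U Δ.lam hlam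
    · rw [Δ.rel6 h6 h2 g, Fintype.sum_bool]
      simp [sub_eq_add_neg]

end Data

end Pool.Agent.U157.BB
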